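import Mathlib

namespace Pool.Agent.Work.MP_95815e_co

/-- A configuration of the machine: the remaining input, the contents of the two pop
stacks (top first), and the output produced so far. -/
structure Config where
  input : List ℕ
  stackA : List ℕ
  stackB : List ℕ
  output : List ℕ

/-- One operation of the machine with two parallel pop stacks and a bypass. -/
inductive Step : Config → Config → Prop
  | bypass (x : ℕ) (i s t o : List ℕ) : Step ⟨x :: i, s, t, o⟩ ⟨i, s, t, o ++ [x]⟩
  | pushA (x : ℕ) (i s t o : List ℕ) : Step ⟨x :: i, s, t, o⟩ ⟨i, x :: s, t, o⟩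
  | pushB (x : ℕ) (i s t o : List ℕ) : Step ⟨x :: i, s, t, o⟩ ⟨i, s, x :: t, o⟩
  | popA (i s t o : List ℕ) : Step ⟨i, s, t, o⟩ ⟨i, [], t, o ++ s⟩
  | popB (i s t o : List ℕ) : Step ⟨i, s, t, o⟩ ⟨i, s, [], o ++ t⟩

/-- `l` (a permutation in one-line notation) is sortable: some sequence of operations turns
the input `l` into the output `1, 2, ..., n`. -/
def Sortable (l : List ℕ) : Prop :=
  Relation.ReflTransGen Step ⟨l, [], [], []⟩ ⟨[], [], [], List.range' 1 l.length⟩

/-- `l` is simple: a block `v` of consecutive entries whose values are consecutive integers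
`a, a+1, ..., a + |v| - 1` in some order has at most one entry or is all of `l`. -/
def Simple (l : List ℕ) : Prop :=
  ∀ (u v w : List ℕ) (a : ℕ), l = u ++ v ++ w → v.Perm (List.range' a v.length) →
    v.length ≤ 1 ∨ v.length = l.length

open Classical in
/-- The number of simple sortable permutations of size `n` (in one-line notation, i.e.
as rearrangements of the list `[1, 2, ..., n]`). -/
noncomputable def simpleSortable (n : ℕ) : ℕ :=
  ((List.range' 1 n).permutations.toFinset.filter fun l => Simple l ∧ Sortable l).card

end Pool.Agent.Work.MP_95815e_co
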