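import Mathlib
import Pool.Agent.Work.MP_95815e_co.Defs

namespace Pool.Agent.Work.MP_95815e_co

/-- Which end of which gap was touched by the last reading. -/
inductive Bl | n | L | R | r
  deriving DecidableEq

/-- Moves. -/
inductive Mv | P | L | R | M | U | V | u | r | F | f | Z
  deriving DecidableEq

/-- States of the refined automaton. -/
inductive St
  | S
  | AP (c : ℕ)
  | A (b : Bl) (o c d : ℕ)
  | B (b : Bl) (o c d e g : ℕ)
  | C (b : Bl) (o c d e : ℕ)
  | C' (b : Bl) (c d e : ℕ)
  | D (x : ℕ)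
  | E

/-- Transitions. -/
inductive Tr (n : ℕ) : St → ℕ → Mv → St → Prop
  | sP (x : ℕ) (h : 1 < x ∧ x < n) : Tr n .S x .P (.AP x)
  | apL (c x : ℕ) (h : x = 1 ∧ 2 < c ∧ c < n) : Tr n (.AP c) x .L (.A .L x c c)
  | apM (c x : ℕ) (h : 1 < x ∧ x + 1 < c ∧ c < n) : Tr n (.AP c) x .M (.B .R 0 x x c c)
  | apU (c x : ℕ) (h : 1 < c ∧ c + 1 < x ∧ x < n) : Tr n (.AP c) x .U (.B .r 0 c c x x)
  | apV (c x : ℕ) (h : 1 < c ∧ c + 1 < x ∧ x = n) : Tr n (.AP c) x .V (.C' .r c c x)
  | aL (b : Bl) (o c d x : ℕ) (hb : b ≠ .L) (h : x = o + 1 ∧ 1 ≤ o ∧ x + 1 < c ∧ c ≤ d ∧ d < n) :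
      Tr n (.A b o c d) x .L (.A .L x c d)
  | aR (b : Bl) (o c d x : ℕ) (hb : b ≠ .R) (h : x + 1 = c ∧ 1 ≤ o ∧ o + 1 < x ∧ c ≤ d ∧ d < n) :
      Tr n (.A b o c d) x .R (.A .R o x d)
  | aM (b : Bl) (o c d x : ℕ) (h : 1 ≤ o ∧ o + 1 < x ∧ x + 1 < c ∧ c ≤ d ∧ d < n) :
      Tr n (.A b o c d) x .M (.B .R o x x c d)
  | aU (b : Bl) (o c d x : ℕ) (h : 1 ≤ o ∧ o + 1 < c ∧ c ≤ d ∧ d + 1 < x ∧ x < n) :
      Tr n (.A b o c d) x .U (.B .r o c d x x)
  | aV (b : Bl) (o c d x : ℕ) (h : 1 ≤ o ∧ o + 1 < c ∧ c ≤ d ∧ d + 1 < x ∧ x = n) :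
      Tr n (.A b o c d) x .V (.C .r o c d x)
  | au (b : Bl) (o c d x : ℕ) (h : 1 ≤ o ∧ c = o + 2 ∧ c ≤ d ∧ x = d + 1 ∧ x = n) :
      Tr n (.A b o c d) x .u (.D (o + 1))
  | bL (b : Bl) (o c d e g x : ℕ) (hb : b ≠ .L)
      (h : x = o + 1 ∧ x + 1 < c ∧ c ≤ d ∧ d + 1 < e ∧ e ≤ g ∧ g < n) :
      Tr n (.B b o c d e g) x .L (.B .L x c d e g)
  | bR (b : Bl) (o c d e g x : ℕ) (hb : b ≠ .R)
      (h : x + 1 = c ∧ o + 1 < x ∧ c ≤ d ∧ d + 1 < e ∧ e ≤ g ∧ g < n) :
      Tr n (.B b o c d e g) x .R (.B .R o x d e g)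
  | br (b : Bl) (o c d e g x : ℕ) (hb : b ≠ .r)
      (h : x + 1 = e ∧ o + 1 < c ∧ c ≤ d ∧ d + 1 < x ∧ e ≤ g ∧ g < n) :
      Tr n (.B b o c d e g) x .r (.B .r o c d x g)
  | bF (b : Bl) (o c d e g x : ℕ) (hb : b = .r)
      (h : x = o + 1 ∧ x + 1 = c ∧ c ≤ d ∧ d + 1 < e ∧ e ≤ g ∧ g < n) :
      Tr n (.B b o c d e g) x .F (.A .n d e g)
  | cL (b : Bl) (o c d e x : ℕ) (hb : b ≠ .L)
      (h : x = o + 1 ∧ 1 ≤ o ∧ x + 1 < c ∧ c ≤ d ∧ d + 1 < e ∧ e ≤ n) :
      Tr n (.C b o c d e) x .L (.C .L x c d e)
  | cR (b : Bl) (o c d e x : ℕ) (hb : b ≠ .R)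
      (h : x + 1 = c ∧ 1 ≤ o ∧ o + 1 < x ∧ c ≤ d ∧ d + 1 < e ∧ e ≤ n) :
      Tr n (.C b o c d e) x .R (.C .R o x d e)
  | cr (b : Bl) (o c d e x : ℕ) (hb : b ≠ .r)
      (h : x + 1 = e ∧ 1 ≤ o ∧ o + 1 < c ∧ c ≤ d ∧ d + 1 < x ∧ e ≤ n) :
      Tr n (.C b o c d e) x .r (.C .r o c d x)
  | cF (b : Bl) (o c d e x : ℕ) (hb : b = .r)
      (h : x = o + 1 ∧ 1 ≤ o ∧ x + 1 = c ∧ c ≤ d ∧ e = d + 2 ∧ e ≤ n) :
      Tr n (.C b o c d e) x .F (.D (d + 1))
  | cf (b : Bl) (o c d e x : ℕ) (hb : b ≠ .r)
      (h : x = d + 1 ∧ 1 ≤ o ∧ c = o + 2 ∧ c ≤ d ∧ e = d + 2 ∧ e ≤ n) :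
      Tr n (.C b o c d e) x .f (.D (o + 1))
  | dL (b : Bl) (c d e x : ℕ)
      (h : x = 1 ∧ 2 < c ∧ c ≤ d ∧ d + 1 < e ∧ e ≤ n) :
      Tr n (.C' b c d e) x .L (.C .L x c d e)
  | dR (b : Bl) (c d e x : ℕ) (hb : b ≠ .R)
      (h : x + 1 = c ∧ 1 < x ∧ c ≤ d ∧ d + 1 < e ∧ e ≤ n) :
      Tr n (.C' b c d e) x .R (.C' .R x d e)
  | dr (b : Bl) (c d e x : ℕ) (hb : b ≠ .r)
      (h : x + 1 = e ∧ 1 < c ∧ c ≤ d ∧ d + 1 < x ∧ e ≤ n) :
      Tr n (.C' b c d e) x .r (.C' .r c d x)
  | dF (b : Bl) (c d e x : ℕ) (hb : b = .r)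
      (h : x = 1 ∧ c = 2 ∧ c ≤ d ∧ e = d + 2 ∧ e ≤ n) :
      Tr n (.C' b c d e) x .F (.D (d + 1))
  | z (x : ℕ) (h : 1 < x ∧ x < n) : Tr n (.D x) x .Z .E

/-- Complete runs. -/
inductive Run (n : ℕ) : St → List ℕ → List Mv → Prop
  | nil : Run n .E [] []
  | cons {s s' : St} {x : ℕ} {m : Mv} {l : List ℕ} {w : List Mv} :
      Tr n s x m s' → Run n s' l w → Run n s (x :: l) (m :: w)

/-- The values which are not yet read in a state. -/
def unread (n : ℕ) : St → ℕ → Prop
  | .S, v => 1 ≤ v ∧ v ≤ n
  | .AP c, v => (1 ≤ v ∧ v < c) ∨ (c < v ∧ v ≤ n)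
  | .A _ o c d, v => (o < v ∧ v < c) ∨ (d < v ∧ v ≤ n)
  | .B _ o c d e g, v => (o < v ∧ v < c) ∨ (d < v ∧ v < e) ∨ (g < v ∧ v ≤ n)
  | .C _ o c d e, v => (o < v ∧ v < c) ∨ (d < v ∧ v < e)
  | .C' _ c d e, v => (0 < v ∧ v < c) ∨ (d < v ∧ v < e)
  | .D x, v => v = x
  | .E, _ => False

lemma Tr.unread_iff {n : ℕ} {s s' : St} {x : ℕ} {m : Mv} (h : Tr n s x m s') (v : ℕ) :
    unread n s v ↔ (v = x ∨ unread n s' v) := by
  cases h <;> simp only [unread, or_false] <;> omega

lemma Tr.not_unread {n : ℕ} {s s' : St} {x : ℕ} {m : Mv} (h : Tr n s x m s') :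
    ¬ unread n s' x := by
  cases h <;> simp only [unread, not_false_eq_true] <;> omega

lemma Run.mem_iff {n : ℕ} {s : St} {l : List ℕ} {w : List Mv} (h : Run n s l w) :
    l.Nodup ∧ ∀ v, v ∈ l ↔ unread n s v := by
  induction h with
  | nil => simp [unread]
  | cons ht _ ih =>
    refine ⟨?_, ?_⟩
    · rw [List.nodup_cons]
      refine ⟨?_, ih.1⟩
      rw [ih.2]
      exact ht.not_unread
    · intro v
      rw [List.mem_cons, ih.2, ht.unread_iff]

lemma Run.perm {n : ℕ} {l : List ℕ} {w : List Mv} (h : Run n .S l w) :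
    l.Perm (List.range' 1 n) := by
  have h1 := h.mem_iff
  rw [List.perm_ext_iff_of_nodup h1.1 List.nodup_range']
  intro v
  rw [h1.2, List.mem_range'_1]
  simp only [unread]
  omega

lemma Run.length_eq {n : ℕ} {s : St} {l : List ℕ} {w : List Mv} (h : Run n s l w) :
    l.length = w.length := by
  induction h with
  | nil => rfl
  | cons _ _ ih => simp [ih]

/-! ### Runs are simple -/

lemma tr_adj {n : ℕ} {s s1 s2 : St} {x y : ℕ} {m m' : Mv} (h1 : Tr n s x m s1)
    (h2 : Tr n s1 y m' s2) : y ≠ x + 1 ∧ x ≠ y + 1 := by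
  cases h1 <;> cases h2 <;> first | omega | simp_all

lemma mtrack {n : ℕ} : ∀ (v : List ℕ) {l : List ℕ} {b : Bl} {o c d e g : ℕ} {w : List Mv},
    Run n (.B b o c d e g) (v ++ l) w → d + 1 ∈ v → o + 1 ∈ v ∧ (b = .r ∨ e - 1 ∈ v) := by
  intro v
  induction v with
  | nil => intro l b o c d e g w _ h; simp at h
  | cons y v ih =>
    intro l b o c d e g w hr hd
    rw [List.cons_append] at hr
    cases hr with
    | cons ht hr =>
      rw [List.mem_cons] at hd
      cases ht with
      | bL _ _ _ _ _ _ _ hb h =>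
        obtain ⟨h1, h2⟩ := ih hr (by
          rcases hd with hd | hd
          · omega
          · exact hd)
        refine ⟨?_, ?_⟩
        · rw [List.mem_cons]; left; omega
        · right
          rcases h2 with h2 | h2
          · simp at h2
          · exact List.mem_cons_of_mem _ h2
      | bR _ _ _ _ _ _ _ hb h =>
        obtain ⟨h1, h2⟩ := ih hr (by
          rcases hd with hd | hd
          · omega
          · exact hd)
        refine ⟨List.mem_cons_of_mem _ h1, ?_⟩
        · right
          rcases h2 with h2 | h2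
          · simp at h2
          · exact List.mem_cons_of_mem _ h2
      | br _ _ _ _ _ _ _ hb h =>
        obtain ⟨h1, h2⟩ := ih hr (by
          rcases hd with hd | hd
          · omega
          · exact hd)
        refine ⟨List.mem_cons_of_mem _ h1, ?_⟩
        right
        rw [List.mem_cons]; left; omega
      | bF _ _ _ _ _ _ _ hb h =>
        refine ⟨?_, Or.inl hb⟩
        rw [List.mem_cons]; left; omega

/-- States reached after at least two readings. -/
def late : St → Prop
  | .S => False
  | .AP _ => False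
  | _ => True

lemma Tr.ne_S {n : ℕ} {s s' : St} {x : ℕ} {m : Mv} (h : Tr n s x m s') : s' ≠ .S := by
  cases h <;> simp

lemma Tr.late {n : ℕ} {s s' : St} {x : ℕ} {m : Mv} (h : Tr n s x m s') (hs : s ≠ .S) :
    late s' := by
  cases h <;> simp_all [Pool.Agent.Work.MP_95815e_co.late]

lemma late_ne_S {s : St} (h : late s) : s ≠ .S := by
  rintro rfl; exact h

lemma Run.split {n : ℕ} : ∀ (u : List ℕ) {l : List ℕ} {s : St} {w : List Mv},
    Run n s (u ++ l) w → ∃ s' w', Run n s' l w' ∧ (u = [] → s' = s) ∧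
      (1 ≤ u.length → s' ≠ .S) ∧ (2 ≤ u.length → late s') ∧ (s ≠ .S → 1 ≤ u.length → late s') := by
  intro u
  induction u with
  | nil => intro l s w h; exact ⟨s, w, h, fun _ => rfl, by simp, by simp, by simp⟩
  | cons y u ih =>
    intro l s w h
    rw [List.cons_append] at h
    cases h with
    | cons ht hr =>
      obtain ⟨s', w', h1, h2, h3, h4, h5⟩ := ih hr
      refine ⟨s', w', h1, by simp, ?_, ?_, ?_⟩
      · intro _
        rcases u with _ | ⟨z, u⟩
        · rw [h2 rfl]; exact ht.ne_S
        · exact h3 (by simp)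
      · intro hl
        have : 1 ≤ u.length := by simpa using hl
        exact h5 ht.ne_S this
      · intro hs _
        rcases u with _ | ⟨z, u⟩
        · rw [h2 rfl]; exact ht.late hs
        · exact h5 ht.ne_S (by simp)

lemma between {n : ℕ} {s s' : St} {x : ℕ} {m : Mv} (h : Tr n s x m s') (hl : late s) :
    ∃ p q r, p < q ∧ q < r ∧ 1 ≤ p ∧ r ≤ n ∧ ¬ unread n s p ∧ unread n s q ∧
      ¬ unread n s r := by
  cases h with
  | sP | apL | apM | apU | apV => exact absurd hl (by simp [late])
  | aL b o c d | aR b o c d | aM b o c d | aU b o c d | aV b o c d | au b o c d =>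
    refine ⟨o, o + 1, c, ?_⟩
    simp only [unread]
    omega
  | bL b o c d e g | bR b o c d e g | br b o c d e g | bF b o c d e g =>
    refine ⟨c, d + 1, e, ?_⟩
    simp only [unread]
    omega
  | cL b o c d e | cR b o c d e | cr b o c d e | cF b o c d e | cf b o c d e =>
    refine ⟨c, d + 1, e, ?_⟩
    simp only [unread]
    omega
  | dL b c d e | dR b c d e | dr b c d e | dF b c d e =>
    refine ⟨c, d + 1, e, ?_⟩
    simp only [unread]
    omega
  | z _ h =>
    refine ⟨1, x, n, h.1, h.2, le_rfl, le_rfl, ?_, ?_, ?_⟩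
    · show ¬ (1 = x); omega
    · rfl
    · show ¬ (n = x); omega

lemma mem_range_perm {v : List ℕ} {a k : ℕ} (h : v.Perm (List.range' a k)) (z : ℕ) :
    z ∈ v ↔ a ≤ z ∧ z < a + k := by
  rw [h.mem_iff, List.mem_range'_1]

/-- After a block `V` of values strictly below everything that remains, something else must
happen. -/
lemma run_simple_aux {n : ℕ} {l : List ℕ} {w : List Mv} (hrun : Run n .S l w) :
    ∀ (k : ℕ) (u v t : List ℕ) (a : ℕ), l = u ++ v ++ t → v.length = k →
      v.Perm (List.range' a k) → 2 ≤ k → k < l.length → False := by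
  intro k
  induction k with
  | zero => intro u v t a _ _ _ h; omega
  | succ k ih =>
    intro u v t a hl hvl hvp hk hkl
    obtain ⟨x, v', rfl⟩ : ∃ x v', v = x :: v' := by
      rcases v with _ | ⟨x, v'⟩
      · simp at hvl
      · exact ⟨x, v', rfl⟩
    obtain ⟨y, v'', rfl⟩ : ∃ y v'', v' = y :: v'' := by
      rcases v' with _ | ⟨y, v''⟩
      · simp at hvl; omega
      · exact ⟨y, v'', rfl⟩
    have hmem := mem_range_perm hvp
    have hnodup : (x :: y :: v'').Nodup := hvp.nodup_iff.2 List.nodup_range'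
    have hrun' := hrun
    rw [hl, List.append_assoc] at hrun'
    obtain ⟨s, w1, hs, hs0, hs1, -, -⟩ := hrun'.split
    have hsmem := hs.mem_iff.2
    rw [List.cons_append, List.cons_append] at hs
    cases hs with
    | @cons _ s1 _ m1 _ _ ht hr =>
    cases hr with
    | @cons _ s2 _ m2 _ _ ht2 hr2 =>
    have hadj := tr_adj ht ht2
    have hx := (hmem x).1 (by simp)
    have hy := (hmem y).1 (by simp)
    have hxy : x ≠ y := by
      intro h
      rw [List.nodup_cons] at hnodup
      exact hnodup.1 (by simp [h])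
    by_cases hk2 : k = 1
    · omega
    -- first element not extremal
    have hxa : x ≠ a := by
      intro h
      apply ih (u ++ [x]) (y :: v'') t (a + 1)
      · rw [hl]; simp
      · simpa using hvl
      · have h2 : (x :: y :: v'').Perm (a :: List.range' (a + 1) k) := by
          rw [List.range'_succ] at hvp
          exact hvp
        rw [h] at h2
        exact (List.perm_cons a).1 h2
      · omega
      · omega
    have hxb : x ≠ a + k := by
      intro h
      apply ih (u ++ [x]) (y :: v'') t a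
      · rw [hl]; simp
      · simpa using hvl
      · have h2 : (x :: y :: v'').Perm ((a + k) :: List.range' a k) := by
          rw [List.range'_1_concat] at hvp
          exact hvp.trans (List.perm_append_singleton _ _)
        rw [h] at h2
        exact (List.perm_cons _).1 h2
      · omega
      · omega
    have hr1 : Run n s1 ((y :: v'') ++ t) (m2 :: _) := Run.cons ht2 hr2
    have hs1mem := hr1.mem_iff.2
    have hmem' : ∀ z, a ≤ z → z < a + (k + 1) → z ≠ x → z ∈ y :: v'' := by
      intro z h1 h2 h3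
      have := (hmem z).2 ⟨h1, h2⟩
      rw [List.mem_cons] at this
      rcases this with h | h
      · exact absurd h h3
      · exact h
    have hun : ∀ z, a ≤ z → z < a + (k + 1) → unread n s z := by
      intro z h1 h2
      rw [← hsmem]
      exact List.mem_append_left _ ((hmem z).2 ⟨h1, h2⟩)
    have hun1 : ∀ z, a ≤ z → z < a + (k + 1) → z ≠ x → unread n s1 z := by
      intro z h1 h2 h3
      rw [← hs1mem]
      exact List.mem_append_left _ (hmem' z h1 h2 h3)
    have hpre := hun1 (x - 1) (by omega) (by omega) (by omega)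
    have hpost := hun1 (x + 1) (by omega) (by omega) (by omega)
    -- the state after reading all of v
    have hfin : ∀ (ht0 : t ≠ []), ∃ s3, late s3 ∧ (∀ z, z ∈ t ↔ unread n s3 z) ∧
        ∃ p q r, p < q ∧ q < r ∧ 1 ≤ p ∧ r ≤ n ∧ ¬ unread n s3 p ∧ unread n s3 q ∧
        ¬ unread n s3 r := by
      intro ht0
      have hh : Run n s ((x :: y :: v'') ++ t) (m1 :: m2 :: _) := Run.cons ht (Run.cons ht2 hr2)
      obtain ⟨s3, w3, g1, -, -, g4, -⟩ := hh.split
      have hlate := g4 (by simp)
      refine ⟨s3, hlate, g1.mem_iff.2, ?_⟩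
      rcases t with _ | ⟨t0, t⟩
      · exact absurd rfl ht0
      · cases g1 with
        | cons ht3 _ => exact between ht3 hlate
    have hMcase : ∀ (o c d e g : ℕ) (w2 : List Mv),
        Run n (.B .R o c d e g) ((y :: v'') ++ t) w2 →
        d + 1 ∈ y :: v'' → o + 1 ∈ y :: v'' ∧ e - 1 ∈ y :: v'' := by
      intro o c d e g w2 h1 h2
      obtain ⟨g1, g2⟩ := mtrack _ h1 h2
      refine ⟨g1, ?_⟩
      rcases g2 with g2 | g2
      · simp at g2
      · exact g2
    have hne_x : ∀ z, z ∈ y :: v'' → a ≤ z ∧ z < a + (k + 1) := by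
      intro z hz
      exact (hmem z).1 (List.mem_cons_of_mem _ hz)
    cases ht with
    | sP _ h =>
      have hu : u = [] := by
        by_contra hne
        apply hs1 _ rfl
        rcases u with _ | ⟨u0, u⟩
        · exact absurd rfl hne
        · simp
      have ht0 : t ≠ [] := by
        rintro rfl
        rw [hl, hu] at hkl
        simp at hkl hvl
        omega
      obtain ⟨s3, -, g1, p, q, r, f1, f2, f3, f4, f5, f6, f7⟩ := hfin ht0
      have hall : ∀ z, 1 ≤ z → z ≤ n → ¬ unread n s3 z → z ∈ x :: y :: v'' := by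
        intro z z1 z2 z3
        have : z ∈ (x :: y :: v'') ++ t := by
          rw [hsmem]
          simp only [unread]
          omega
        rw [List.mem_append] at this
        rcases this with h | h
        · exact h
        · exact absurd ((g1 z).1 h) z3
      have hp := (hmem p).1 (hall p (by omega) (by omega) f5)
      have hr' := (hmem r).1 (hall r (by omega) (by omega) f7)
      have hq : q ∈ x :: y :: v'' := (hmem q).2 (by omega)
      have hnd : ((x :: y :: v'') ++ t).Nodup := by
        have := hrun.mem_iff.1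
        rw [hl, hu] at this
        simpa using this
      exact List.disjoint_of_nodup_append hnd hq ((g1 q).2 f6)
    | apL _ _ h => simp only [unread] at hpre; omega
    | apV _ _ h => simp only [unread] at hpost; omega
    | aL => simp only [unread] at hpre; omega
    | aR => simp only [unread] at hpost; omega
    | aV => simp only [unread] at hpost; omega
    | au => simp only [unread] at hpost; omega
    | bL => simp only [unread] at hpre; omega
    | bR => simp only [unread] at hpost; omega
    | br => simp only [unread] at hpost; omega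
    | bF => simp only [unread] at hpre; omega
    | cL => simp only [unread] at hpre; omega
    | cR => simp only [unread] at hpost; omega
    | cr => simp only [unread] at hpost; omega
    | cF => simp only [unread] at hpre; omega
    | cf => simp only [unread] at hpost; omega
    | dL => simp only [unread] at hpre; omega
    | dR => simp only [unread] at hpost; omega
    | dr => simp only [unread] at hpost; omega
    | dF => simp only [unread] at hpre; omega
    | z => exact hpre
    | apU c _ h =>
      have hc : ¬ unread n (.AP c) c := by simp only [unread]; omega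
      cases ht2 with
      | bL => exact hc (hun c (by omega) (by omega))
      | bR => exact hc (hun c (by omega) (by omega))
      | br _ _ _ _ _ _ _ hb => exact hb rfl
      | bF => exact hc (hun c (by omega) (by omega))
    | aU b o c d _ h =>
      have hc : ¬ unread n (.A b o c d) c := by simp only [unread]; omega
      cases ht2 with
      | bL => exact hc (hun c (by omega) (by omega))
      | bR => exact hc (hun c (by omega) (by omega))
      | br _ _ _ _ _ _ _ hb => exact hb rfl
      | bF => exact hc (hun c (by omega) (by omega))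
    | apM c _ h =>
      obtain ⟨g1, g2⟩ := hMcase _ _ _ _ _ _ hr1 (hmem' (x + 1) (by omega) (by omega) (by omega))
      have g1' := hne_x _ g1
      have g2' := hne_x _ g2
      have hc : ¬ unread n (.AP c) c := by simp only [unread]; omega
      have h0 : ¬ unread n (.AP c) 0 := by simp only [unread]; omega
      have ha : a = 1 := by
        by_contra hne
        exact h0 (hun 0 (by omega) (by omega))
      have hb : a + (k + 1) = c := by
        by_contra hne
        exact hc (hun c (by omega) (by omega))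
      have ht0 : t ≠ [] := by
        rintro rfl
        have : c + 1 ∈ (x :: y :: v'') ++ [] := by
          rw [hsmem]; simp only [unread]; omega
        rw [List.append_nil, hmem] at this
        omega
      obtain ⟨s3, -, q1, p, q, r, f1, f2, f3, f4, f5, f6, f7⟩ := hfin ht0
      have hnd : ((x :: y :: v'') ++ t).Nodup := by
        have := hrun.mem_iff.1
        rw [hl, List.append_assoc] at this
        exact (List.nodup_append.1 this).2.1
      have hq1 : q ∈ t := (q1 q).2 f6
      have hq2 : unread n (.AP c) q := (hsmem q).1 (List.mem_append_right _ hq1)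
      have hq3 : ¬ (a ≤ q ∧ q < a + (k + 1)) := by
        intro hh
        exact List.disjoint_of_nodup_append hnd ((hmem q).2 hh) hq1
      have hr2 : r ∈ (x :: y :: v'') ++ t := by
        rw [hsmem]
        simp only [unread] at hq2 ⊢
        omega
      rw [List.mem_append, hmem, q1] at hr2
      simp only [unread] at hq2
      rcases hr2 with hr2 | hr2
      · omega
      · exact f7 hr2
    | aM b o c d _ h =>
      obtain ⟨g1, g2⟩ := hMcase _ _ _ _ _ _ hr1 (hmem' (x + 1) (by omega) (by omega) (by omega))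
      have g1' := hne_x _ g1
      have g2' := hne_x _ g2
      have hc : ¬ unread n (.A b o c d) c := by simp only [unread]; omega
      have h0 : ¬ unread n (.A b o c d) o := by simp only [unread]; omega
      have ha : a = o + 1 := by
        by_contra hne
        exact h0 (hun o (by omega) (by omega))
      have hb : a + (k + 1) = c := by
        by_contra hne
        exact hc (hun c (by omega) (by omega))
      have ht0 : t ≠ [] := by
        rintro rfl
        have : d + 1 ∈ (x :: y :: v'') ++ [] := by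
          rw [hsmem]; simp only [unread]; omega
        rw [List.append_nil, hmem] at this
        omega
      obtain ⟨s3, -, q1, p, q, r, f1, f2, f3, f4, f5, f6, f7⟩ := hfin ht0
      have hnd : ((x :: y :: v'') ++ t).Nodup := by
        have := hrun.mem_iff.1
        rw [hl, List.append_assoc] at this
        exact (List.nodup_append.1 this).2.1
      have hq1 : q ∈ t := (q1 q).2 f6
      have hq2 : unread n (.A b o c d) q := (hsmem q).1 (List.mem_append_right _ hq1)
      have hq3 : ¬ (a ≤ q ∧ q < a + (k + 1)) := by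
        intro hh
        exact List.disjoint_of_nodup_append hnd ((hmem q).2 hh) hq1
      have hr2 : r ∈ (x :: y :: v'') ++ t := by
        rw [hsmem]
        simp only [unread] at hq2 ⊢
        omega
      rw [List.mem_append, hmem, q1] at hr2
      simp only [unread] at hq2
      rcases hr2 with hr2 | hr2
      · omega
      · exact f7 hr2

theorem Run.simple {n : ℕ} {l : List ℕ} {w : List Mv} (h : Run n .S l w) : Simple l := by
  intro u v t a hl hv
  by_contra hcon
  rw [not_or] at hcon
  have h1 : v.length ≤ l.length := by rw [hl]; simp; omega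
  exact run_simple_aux h v.length u v t a hl rfl hv (by omega) (by omega)

end Pool.Agent.Work.MP_95815e_co
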