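import Mathlib
import Pool.Agent.Work.MP_95815e_co.Auto

namespace Pool.Agent.Work.MP_95815e_co

open Relation

/-- The final configuration is reachable. -/
def G (n : ℕ) (c : Config) : Prop := ReflTransGen Step c ⟨[], [], [], List.range' 1 n⟩

lemma G.head {n : ℕ} {c c' : Config} (h : Step c c') (h' : G n c') : G n c :=
  ReflTransGen.head h h'

/-- Exchange of the two stacks. -/
def swp (c : Config) : Config := ⟨c.input, c.stackB, c.stackA, c.output⟩

lemma Step.swp {c c' : Config} (h : Step c c') :
    Step (Pool.Agent.Work.MP_95815e_co.swp c) (Pool.Agent.Work.MP_95815e_co.swp c') := by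
  cases h with
  | bypass x i s t o => exact Step.bypass x i t s o
  | pushA x i s t o => exact Step.pushB x i t s o
  | pushB x i s t o => exact Step.pushA x i t s o
  | popA i s t o => exact Step.popB i t s o
  | popB i s t o => exact Step.popA i t s o

lemma G.swap {n : ℕ} {i s t o : List ℕ} (h : G n ⟨i, s, t, o⟩) : G n ⟨i, t, s, o⟩ := by
  have : ReflTransGen Step (swp ⟨i, s, t, o⟩) (swp ⟨[], [], [], List.range' 1 n⟩) :=
    ReflTransGen.lift swp (fun _ _ h => Step.swp h) _ _ h
  exact this

/-- The machine can finish from (the configuration corresponding to) a state. -/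
def Ok (n : ℕ) : St → List ℕ → Prop
  | .S, l => G n ⟨l, [], [], []⟩
  | .AP c, l => G n ⟨l, [c], [], []⟩
  | .A _ o c d, l => G n ⟨l, List.range' c (d + 1 - c), [], List.range' 1 o⟩
  | .B _ o c d e g, l =>
      G n ⟨l, List.range' c (d + 1 - c), List.range' e (g + 1 - e), List.range' 1 o⟩
  | .C _ o c d e, l =>
      G n ⟨l, List.range' c (d + 1 - c), List.range' e (n + 1 - e), List.range' 1 o⟩
  | .C' _ c d e, l =>
      G n ⟨l, List.range' c (d + 1 - c), List.range' e (n + 1 - e), []⟩
  | .D x, l => ∀ k, k ≤ n - x →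
      G n ⟨l, List.range' (x + 1) k, List.range' (x + 1 + k) (n - x - k),
        List.range' 1 (x - 1)⟩
  | .E, l => l = []

lemma cons_range {x c k k' : ℕ} (h : x + 1 = c) (hk : k + 1 = k') :
    x :: List.range' c k = List.range' x k' := by
  subst h; subst hk; rw [List.range'_succ]

lemma range_one {x k : ℕ} (hk : k = 1) : List.range' x k = [x] := by
  subst hk; simp

lemma out_concat {o x : ℕ} (h : x = o + 1) : List.range' 1 o ++ [x] = List.range' 1 x := by
  subst h
  rw [List.range'_1_concat, Nat.add_comm 1 o]

lemma out_append {o c k m : ℕ} (h : c = o + 1) (hm : m = o + k) :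
    List.range' 1 o ++ List.range' c k = List.range' 1 m := by
  subst h; subst hm
  have := List.range'_append_1 (s := 1) (m := o) (n := k)
  rw [Nat.add_comm 1 o] at this
  exact this

lemma Tr.ok {n : ℕ} {s s' : St} {x : ℕ} {m : Mv} {l : List ℕ} (h : Tr n s x m s')
    (h' : Ok n s' l) : Ok n s (x :: l) := by
  cases h with
  | sP _ h => exact G.head (Step.pushA _ _ _ _ _) h'
  | apL c _ h =>
    simp only [Ok] at h' ⊢
    rw [range_one (by omega)] at h'
    refine G.head (Step.bypass _ _ _ _ _) ?_
    have e : ([] : List ℕ) ++ [x] = List.range' 1 x := by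
      have := out_concat (o := 0) (x := x) (by omega)
      simpa using this
    rw [e]
    exact h'
  | apM c _ h =>
    simp only [Ok] at h' ⊢
    rw [range_one (by omega), range_one (by omega)] at h'
    exact G.head (Step.pushB _ _ _ _ _) h'.swap
  | apU c _ h =>
    simp only [Ok] at h' ⊢
    rw [range_one (by omega), range_one (by omega)] at h'
    exact G.head (Step.pushB _ _ _ _ _) h'
  | apV c _ h =>
    simp only [Ok] at h' ⊢
    rw [range_one (by omega), range_one (by omega)] at h'
    exact G.head (Step.pushB _ _ _ _ _) h'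
  | aL b o c d _ hb h =>
    simp only [Ok] at h' ⊢
    refine G.head (Step.bypass _ _ _ _ _) ?_
    rw [out_concat h.1]
    exact h'
  | aR b o c d _ hb h =>
    simp only [Ok] at h' ⊢
    refine G.head (Step.pushA _ _ _ _ _) ?_
    rw [cons_range h.1 (show d + 1 - c + 1 = d + 1 - x by omega)]
    exact h'
  | aM b o c d _ h =>
    simp only [Ok] at h' ⊢
    rw [range_one (x := x) (by omega)] at h'
    exact G.head (Step.pushB _ _ _ _ _) h'.swap
  | aU b o c d _ h =>
    simp only [Ok] at h' ⊢
    rw [range_one (x := x) (by omega)] at h'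
    exact G.head (Step.pushB _ _ _ _ _) h'
  | aV b o c d _ h =>
    simp only [Ok] at h' ⊢
    rw [range_one (x := x) (by omega)] at h'
    exact G.head (Step.pushB _ _ _ _ _) h'
  | au b o c d _ h =>
    simp only [Ok] at h' ⊢
    refine G.head (Step.pushB _ _ _ _ _) ?_
    have h2 := h' (d + 1 - c) (by omega)
    rw [range_one (k := n - (o + 1) - (d + 1 - c)) (by omega)] at h2
    have e1 : o + 1 + 1 = c := by omega
    have e2 : o + 1 + 1 + (d + 1 - c) = x := by omega
    have e3 : o + 1 - 1 = o := by omega
    rw [e2, e1, e3] at h2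
    exact h2
  | bL b o c d e g _ hb h =>
    simp only [Ok] at h' ⊢
    refine G.head (Step.bypass _ _ _ _ _) ?_
    rw [out_concat h.1]
    exact h'
  | bR b o c d e g _ hb h =>
    simp only [Ok] at h' ⊢
    refine G.head (Step.pushA _ _ _ _ _) ?_
    rw [cons_range h.1 (show d + 1 - c + 1 = d + 1 - x by omega)]
    exact h'
  | br b o c d e g _ hb h =>
    simp only [Ok] at h' ⊢
    refine G.head (Step.pushB _ _ _ _ _) ?_
    rw [cons_range h.1 (show g + 1 - e + 1 = g + 1 - x by omega)]
    exact h'
  | bF b o c d e g _ hb h =>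
    simp only [Ok] at h' ⊢
    refine G.head (Step.pushA _ _ _ _ _) (G.head (Step.popA _ _ _ _) ?_)
    rw [cons_range h.2.1 (show d + 1 - c + 1 = d + 1 - x by omega),
      out_append h.1 (show d = o + (d + 1 - x) by omega)]
    exact h'.swap
  | cL b o c d e _ hb h =>
    simp only [Ok] at h' ⊢
    refine G.head (Step.bypass _ _ _ _ _) ?_
    rw [out_concat h.1]
    exact h'
  | cR b o c d e _ hb h =>
    simp only [Ok] at h' ⊢
    refine G.head (Step.pushA _ _ _ _ _) ?_
    rw [cons_range h.1 (show d + 1 - c + 1 = d + 1 - x by omega)]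
    exact h'
  | cr b o c d e _ hb h =>
    simp only [Ok] at h' ⊢
    refine G.head (Step.pushB _ _ _ _ _) ?_
    rw [cons_range h.1 (show n + 1 - e + 1 = n + 1 - x by omega)]
    exact h'
  | cF b o c d e _ hb h =>
    simp only [Ok] at h' ⊢
    refine G.head (Step.pushA _ _ _ _ _) (G.head (Step.popA _ _ _ _) ?_)
    rw [cons_range h.2.2.1 (show d + 1 - c + 1 = d + 1 - x by omega),
      out_append h.1 (show d = o + (d + 1 - x) by omega)]
    have h2 := h' 0 (by omega)
    have e1 : d + 1 + 1 + 0 = e := by omega
    have e2 : n - (d + 1) - 0 = n + 1 - e := by omega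
    have e3 : d + 1 - 1 = d := by omega
    rw [e1, e2, e3] at h2
    exact h2
  | cf b o c d e _ hb h =>
    simp only [Ok] at h' ⊢
    refine G.head (Step.pushB _ _ _ _ _) ?_
    rw [cons_range (show x + 1 = e by omega) (show n + 1 - e + 1 = n + 1 - x by omega)]
    have h2 := h' (d + 1 - c) (by omega)
    have e1 : o + 1 + 1 = c := by omega
    have e2 : o + 1 + 1 + (d + 1 - c) = x := by omega
    have e3 : o + 1 - 1 = o := by omega
    have e4 : n - (o + 1) - (d + 1 - c) = n + 1 - x := by omega
    rw [e4, e2, e1, e3] at h2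
    exact h2
  | dL b c d e _ h =>
    simp only [Ok] at h' ⊢
    refine G.head (Step.bypass _ _ _ _ _) ?_
    have e : ([] : List ℕ) ++ [x] = List.range' 1 x := by
      have := out_concat (o := 0) (x := x) (by omega)
      simpa using this
    rw [e]
    exact h'
  | dR b c d e _ hb h =>
    simp only [Ok] at h' ⊢
    refine G.head (Step.pushA _ _ _ _ _) ?_
    rw [cons_range h.1 (show d + 1 - c + 1 = d + 1 - x by omega)]
    exact h'
  | dr b c d e _ hb h =>
    simp only [Ok] at h' ⊢
    refine G.head (Step.pushB _ _ _ _ _) ?_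
    rw [cons_range h.1 (show n + 1 - e + 1 = n + 1 - x by omega)]
    exact h'
  | dF b c d f _ hb h =>
    simp only [Ok] at h' ⊢
    refine G.head (Step.pushA _ _ _ _ _) (G.head (Step.popA _ _ _ _) ?_)
    rw [cons_range (show x + 1 = c by omega) (show d + 1 - c + 1 = d + 1 - x by omega)]
    have e : ([] : List ℕ) ++ List.range' x (d + 1 - x) = List.range' 1 d := by
      have := out_append (o := 0) (c := x) (k := d + 1 - x) (m := d) (by omega) (by omega)
      simpa using this
    rw [e]
    have h2 := h' 0 (by omega)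
    have e1 : d + 1 + 1 + 0 = f := by omega
    have e2 : n - (d + 1) - 0 = n + 1 - f := by omega
    have e3 : d + 1 - 1 = d := by omega
    rw [e1, e2, e3] at h2
    exact h2
  | z _ h =>
    simp only [Ok] at h' ⊢
    subst h'
    intro k hk
    refine G.head (Step.bypass _ _ _ _ _) (G.head (Step.popA _ _ _ _)
      (G.head (Step.popB _ _ _ _) ?_))
    rw [out_concat (show x = x - 1 + 1 by omega),
      out_append (show x + 1 = x + 1 by rfl) (show x + k = x + k by rfl),
      out_append (show x + 1 + k = x + k + 1 by omega) (show n = x + k + (n - x - k) by omega)]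
    exact ReflTransGen.refl

lemma Run.ok {n : ℕ} {s : St} {l : List ℕ} {w : List Mv} (h : Run n s l w) : Ok n s l := by
  induction h with
  | nil => rfl
  | cons ht _ ih => exact ht.ok ih

theorem Run.sortable {n : ℕ} {l : List ℕ} {w : List Mv} (h : Run n .S l w) : Sortable l := by
  have h1 := h.ok
  have h2 := h.perm.length_eq
  rw [List.length_range'] at h2
  unfold Sortable
  rw [h2]
  exact h1

end Pool.Agent.Work.MP_95815e_co
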