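import Mathlib
import Pool.Agent.Work.MP_95815e_co.Machine

namespace Pool.Agent.Work.MP_95815e_co

open Relation

/-- States of the basic automaton. -/
inductive BS
  | Z (o : ℕ)
  | O (o c d : ℕ)
  | T (o c d e g : ℕ)

/-- Transitions of the basic automaton. -/
inductive BTr : BS → ℕ → BS → Prop
  | z1 (o x : ℕ) (h : x = o + 1) : BTr (.Z o) x (.Z x)
  | z2 (o x : ℕ) (h : o + 1 < x) : BTr (.Z o) x (.O o x x)
  | o1 (o c d x : ℕ) (h : x = o + 1 ∧ x + 1 = c) : BTr (.O o c d) x (.Z d)
  | o2 (o c d x : ℕ) (h : x = o + 1 ∧ x + 1 < c) : BTr (.O o c d) x (.O x c d)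
  | o3 (o c d x : ℕ) (h : x + 1 = c ∧ o + 1 < x) : BTr (.O o c d) x (.O o x d)
  | o4 (o c d x : ℕ) (h : x + 1 < c ∧ o + 1 < x) : BTr (.O o c d) x (.T o x x c d)
  | o5 (o c d x : ℕ) (h : d < x) : BTr (.O o c d) x (.T o c d x x)
  | t1 (o c d e g x : ℕ) (h : x = o + 1 ∧ x + 1 = c ∧ e = d + 1) : BTr (.T o c d e g) x (.Z g)
  | t2 (o c d e g x : ℕ) (h : x = o + 1 ∧ x + 1 = c ∧ d + 1 < e) : BTr (.T o c d e g) x (.O d e g)
  | t3 (o c d e g x : ℕ) (h : x = o + 1 ∧ x + 1 < c) : BTr (.T o c d e g) x (.T x c d e g)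
  | t4 (o c d e g x : ℕ) (h : x + 1 = c ∧ o + 1 < x) : BTr (.T o c d e g) x (.T o x d e g)
  | t5 (o c d e g x : ℕ) (h : x + 1 = e ∧ d < x) : BTr (.T o c d e g) x (.T o c d x g)

/-- Complete runs of the basic automaton. -/
inductive BRun (n : ℕ) : BS → List ℕ → Prop
  | nil : BRun n (.Z n) []
  | cons {s s' : BS} {x : ℕ} {l : List ℕ} : BTr s x s' → BRun n s' l → BRun n s (x :: l)

/-- Values already read. -/
def bread : BS → ℕ → Prop
  | .Z o, v => 1 ≤ v ∧ v ≤ o
  | .O o c d, v => (1 ≤ v ∧ v ≤ o) ∨ (c ≤ v ∧ v ≤ d)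
  | .T o c d e g, v => (1 ≤ v ∧ v ≤ o) ∨ (c ≤ v ∧ v ≤ d) ∨ (e ≤ v ∧ v ≤ g)

/-- A nonempty stack lies inside the interval `[c, d]`. -/
def hold (s t : List ℕ) (c d : ℕ) : Prop :=
  (s ≠ [] ∧ ∀ v ∈ s, c ≤ v ∧ v ≤ d) ∨ (t ≠ [] ∧ ∀ v ∈ t, c ≤ v ∧ v ≤ d)

/-- Relation between stacks and output on one side, basic states on the other side. -/
def R (s t o : List ℕ) (N : BS) : Prop :=
  (∀ v, (v ∈ o ∨ v ∈ s ∨ v ∈ t) ↔ bread N v) ∧
  match N with
  | .Z _ => True
  | .O p c d => p + 1 < c ∧ c ≤ d ∧ hold s t c d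
  | .T p c d e g => p + 1 < c ∧ c ≤ d ∧ d < e ∧ e ≤ g ∧ hold s t c d ∧ hold s t e g

lemma hold_symm {s t : List ℕ} {c d : ℕ} (h : hold s t c d) : hold t s c d := Or.symm h

lemma R.symm {s t o : List ℕ} {N : BS} (h : R s t o N) : R t s o N := by
  refine ⟨fun v => by rw [← h.1 v]; tauto, ?_⟩
  obtain ⟨-, h⟩ := h
  cases N with
  | Z => trivial
  | O p c d => exact ⟨h.1, h.2.1, hold_symm h.2.2⟩
  | T p c d e g => exact ⟨h.1, h.2.1, h.2.2.1, h.2.2.2.1, hold_symm h.2.2.2.2.1,
      hold_symm h.2.2.2.2.2⟩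

lemma R_bypass {s t o : List ℕ} {N : BS} {x : ℕ} (hR : R s t o N) (hx1 : 1 ≤ x)
    (hxo : x ∉ o) (hxs : x ∉ s) (hxt : x ∉ t) (ho : ∀ u, 1 ≤ u → u < x → u ∈ o) :
    ∃ N', BTr N x N' ∧ R s t (o ++ [x]) N' := by
  obtain ⟨h1, h2⟩ := hR
  have hx : ¬ bread N x := by rw [← h1]; tauto
  have hr : ∀ u, 1 ≤ u → u < x → bread N u := fun u a b => (h1 u).1 (Or.inl (ho u a b))
  have hiff : ∀ v, (v ∈ o ++ [x] ∨ v ∈ s ∨ v ∈ t) ↔ (v = x ∨ bread N v) := by
    intro v
    rw [← h1 v, List.mem_append, List.mem_singleton]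
    tauto
  cases N with
  | Z p =>
    have e : x = p + 1 := by
      by_contra hne
      by_cases hlt : x ≤ p
      · exact hx (by simp only [bread]; omega)
      · have := hr (p + 1) (by omega) (by omega)
        simp only [bread] at this; omega
    refine ⟨.Z x, BTr.z1 _ _ e, fun v => ?_, trivial⟩
    rw [hiff]; simp only [bread]; omega
  | O p c d =>
    have e : x = p + 1 := by
      by_contra hne
      by_cases hlt : x ≤ p
      · exact hx (by simp only [bread]; omega)
      · have := hr (p + 1) (by omega) (by omega)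
        simp only [bread] at this; omega
    by_cases hc : x + 1 = c
    · refine ⟨.Z d, BTr.o1 _ _ _ _ ⟨e, hc⟩, fun v => ?_, trivial⟩
      rw [hiff]; simp only [bread]; omega
    · refine ⟨.O x c d, BTr.o2 _ _ _ _ ⟨e, by omega⟩, fun v => ?_, ?_⟩
      · rw [hiff]; simp only [bread]; omega
      · exact ⟨by omega, h2.2.1, h2.2.2⟩
  | T p c d f g =>
    have e : x = p + 1 := by
      by_contra hne
      by_cases hlt : x ≤ p
      · exact hx (by simp only [bread]; omega)
      · have := hr (p + 1) (by omega) (by omega)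
        simp only [bread] at this; omega
    by_cases hc : x + 1 = c
    · by_cases hf : f = d + 1
      · refine ⟨.Z g, BTr.t1 _ _ _ _ _ _ ⟨e, hc, hf⟩, fun v => ?_, trivial⟩
        rw [hiff]; simp only [bread]; omega
      · refine ⟨.O d f g, BTr.t2 _ _ _ _ _ _ ⟨e, hc, by omega⟩, fun v => ?_, ?_⟩
        · rw [hiff]; simp only [bread]; omega
        · exact ⟨by omega, h2.2.2.2.1, h2.2.2.2.2.2⟩
    · refine ⟨.T x c d f g, BTr.t3 _ _ _ _ _ _ ⟨e, by omega⟩, fun v => ?_, ?_⟩
      · rw [hiff]; simp only [bread]; omega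
      · exact ⟨by omega, h2.2⟩

lemma hold_cons_left {s t : List ℕ} {c d x : ℕ} (h : hold s t c d) (hx : x + 1 = c) :
    hold (x :: s) t x d := by
  rcases h with ⟨h1, h2⟩ | ⟨h1, h2⟩
  · left
    refine ⟨by simp, fun v hv => ?_⟩
    rw [List.mem_cons] at hv
    rcases hv with rfl | hv
    · obtain ⟨y, hy⟩ := List.exists_mem_of_ne_nil _ h1
      have := h2 y hy
      omega
    · have := h2 v hv
      omega
  · right
    refine ⟨h1, fun v hv => ?_⟩
    have := h2 v hv
    omega

lemma hold_right {s t : List ℕ} {c d x : ℕ} (h : hold s t c d) (hs : s ≠ [] → x + 1 ∈ s)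
    (hx : ¬ (c ≤ x + 1 ∧ x + 1 ≤ d)) : hold (x :: s) t c d := by
  rcases h with ⟨h1, h2⟩ | ⟨h1, h2⟩
  · exact absurd (h2 _ (hs h1)) hx
  · exact Or.inr ⟨h1, h2⟩

lemma R_push {s t o : List ℕ} {N : BS} {x : ℕ} (hR : R s t o N) (hx1 : 1 ≤ x)
    (hxo : x ∉ o) (hxs : x ∉ s) (hxt : x ∉ t) (hs : s ≠ [] → x + 1 ∈ s) :
    ∃ N', BTr N x N' ∧ R (x :: s) t o N' := by
  obtain ⟨h1, h2⟩ := hR
  have hx : ¬ bread N x := by rw [← h1]; tauto
  have hs' : s ≠ [] → bread N (x + 1) := fun h => (h1 _).1 (Or.inr (Or.inl (hs h)))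
  have hiff : ∀ v, (v ∈ o ∨ v ∈ x :: s ∨ v ∈ t) ↔ (v = x ∨ bread N v) := by
    intro v
    rw [← h1 v, List.mem_cons]
    tauto
  have hnew : s = [] → hold (x :: s) t x x := by
    intro h
    left
    subst h
    simp
  cases N with
  | Z p =>
    by_cases e : x = p + 1
    · refine ⟨.Z x, BTr.z1 _ _ e, fun v => ?_, trivial⟩
      rw [hiff]; simp only [bread]; omega
    · have hpx : p + 1 < x := by simp only [bread] at hx; omega
      have hsn : s = [] := by
        by_contra hne
        have := hs' hne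
        simp only [bread] at this; omega
      refine ⟨.O p x x, BTr.z2 _ _ hpx, fun v => ?_, hpx, le_rfl, hnew hsn⟩
      rw [hiff]; simp only [bread]; omega
  | O p c d =>
    obtain ⟨k1, k2, k3⟩ := h2
    have hx' := hx
    simp only [bread] at hx'
    by_cases e : x = p + 1
    · by_cases hc : x + 1 = c
      · refine ⟨.Z d, BTr.o1 _ _ _ _ ⟨e, hc⟩, fun v => ?_, trivial⟩
        rw [hiff]; simp only [bread]; omega
      · refine ⟨.O x c d, BTr.o2 _ _ _ _ ⟨e, by omega⟩, fun v => ?_, by omega, k2,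
          hold_right k3 hs (by omega)⟩
        rw [hiff]; simp only [bread]; omega
    by_cases hc : x + 1 = c
    · refine ⟨.O p x d, BTr.o3 _ _ _ _ ⟨hc, by omega⟩, fun v => ?_, by omega, by omega,
        hold_cons_left k3 hc⟩
      rw [hiff]; simp only [bread]; omega
    have hsn : s = [] := by
      by_contra hne
      have := hs' hne
      simp only [bread] at this; omega
    by_cases hlt : x < c
    · refine ⟨.T p x x c d, BTr.o4 _ _ _ _ ⟨by omega, by omega⟩, fun v => ?_, by omega, le_rfl,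
        hlt, k2, hnew hsn, hold_right k3 hs (by omega)⟩
      rw [hiff]; simp only [bread]; omega
    · refine ⟨.T p c d x x, BTr.o5 _ _ _ _ (by omega), fun v => ?_, k1, k2,
        by omega, le_rfl, hold_right k3 hs (by omega), hnew hsn⟩
      rw [hiff]; simp only [bread]; omega
  | T p c d f g =>
    obtain ⟨k1, k2, k3, k4, k5, k6⟩ := h2
    have hx' := hx
    simp only [bread] at hx'
    by_cases e : x = p + 1
    · by_cases hc : x + 1 = c
      · by_cases hf : f = d + 1
        · refine ⟨.Z g, BTr.t1 _ _ _ _ _ _ ⟨e, hc, hf⟩, fun v => ?_, trivial⟩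
          rw [hiff]; simp only [bread]; omega
        · refine ⟨.O d f g, BTr.t2 _ _ _ _ _ _ ⟨e, hc, by omega⟩, fun v => ?_, by omega, k4,
            hold_right k6 hs (by omega)⟩
          rw [hiff]; simp only [bread]; omega
      · refine ⟨.T x c d f g, BTr.t3 _ _ _ _ _ _ ⟨e, by omega⟩, fun v => ?_, by omega, k2, k3, k4,
            hold_right k5 hs (by omega), hold_right k6 hs (by omega)⟩
        rw [hiff]; simp only [bread]; omega
    by_cases hc : x + 1 = c
    · refine ⟨.T p x d f g, BTr.t4 _ _ _ _ _ _ ⟨hc, by omega⟩, fun v => ?_, by omega, by omega,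
        k3, k4, hold_cons_left k5 hc, hold_right k6 hs (by omega)⟩
      rw [hiff]; simp only [bread]; omega
    by_cases hf : x + 1 = f
    · refine ⟨.T p c d x g, BTr.t5 _ _ _ _ _ _ ⟨hf, by omega⟩, fun v => ?_, k1, k2, by omega,
        by omega, hold_right k5 hs (by omega), hold_cons_left k6 hf⟩
      rw [hiff]; simp only [bread]; omega
    exfalso
    have hsn : s = [] := by
      by_contra hne
      have := hs' hne
      simp only [bread] at this; omega
    subst hsn
    rcases k5 with ⟨k5, -⟩ | ⟨k5, k5'⟩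
    · exact k5 rfl
    rcases k6 with ⟨k6, -⟩ | ⟨k6, k6'⟩
    · exact k6 rfl
    obtain ⟨y, hy⟩ := List.exists_mem_of_ne_nil _ k5
    have := k5' y hy
    have := k6' y hy
    omega

lemma hold_pop {s t : List ℕ} {c d : ℕ} (h : hold s t c d) (hs : ∀ v ∈ s, ¬ (c ≤ v)) :
    hold [] t c d := by
  rcases h with ⟨h1, h2⟩ | h
  · obtain ⟨y, hy⟩ := List.exists_mem_of_ne_nil _ h1
    exact absurd (h2 y hy).1 (hs y hy)
  · exact Or.inr h

lemma R_pop {s t o : List ℕ} {N : BS} (hR : R s t o N)
    (hd : ∀ v ∈ s, ∀ u, 1 ≤ u → u ≤ v → u ∈ o ++ s) : R [] t (o ++ s) N := by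
  obtain ⟨h1, h2⟩ := hR
  refine ⟨fun v => ?_, ?_⟩
  · rw [← h1 v, List.mem_append]; simp only [List.not_mem_nil, false_or]; tauto
  have hu : ∀ v ∈ s, ∀ u, 1 ≤ u → u ≤ v → bread N u := by
    intro v hv u a b
    have := hd v hv u a b
    rw [List.mem_append] at this
    rw [← h1]; tauto
  cases N with
  | Z p => trivial
  | O p c d =>
    obtain ⟨k1, k2, k3⟩ := h2
    refine ⟨k1, k2, hold_pop k3 fun v hv hcv => ?_⟩
    have := hu v hv (p + 1) (by omega) (by omega)
    simp only [bread] at this; omega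
  | T p c d f g =>
    obtain ⟨k1, k2, k3, k4, k5, k6⟩ := h2
    refine ⟨k1, k2, k3, k4, hold_pop k5 fun v hv hcv => ?_, hold_pop k6 fun v hv hcv => ?_⟩
    · have := hu v hv (p + 1) (by omega) (by omega)
      simp only [bread] at this; omega
    · have := hu v hv (p + 1) (by omega) (by omega)
      simp only [bread] at this; omega

/-- All values present in a configuration. -/
def tot (c : Config) : List ℕ := c.output ++ (c.stackA ++ (c.stackB ++ c.input))

lemma Step.tot_perm {c c' : Config} (h : Step c c') : (tot c).Perm (tot c') := by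
  cases h with
  | bypass x i s t o =>
    simp only [tot]
    rw [List.append_assoc]
    apply List.Perm.append_left
    have : (x :: (s ++ (t ++ i))).Perm (s ++ (t ++ x :: i)) := by
      rw [← List.append_assoc, ← List.append_assoc]
      exact List.perm_middle.symm
    exact this.symm
  | pushA x i s t o =>
    simp only [tot]
    apply List.Perm.append_left
    have : (x :: (s ++ (t ++ i))).Perm (s ++ (t ++ x :: i)) := by
      rw [← List.append_assoc, ← List.append_assoc]
      exact List.perm_middle.symm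
    exact this.symm
  | pushB x i s t o =>
    simp only [tot]
    apply List.Perm.append_left
    apply List.Perm.append_left
    exact List.perm_middle
  | popA i s t o =>
    simp only [tot, List.append_assoc, List.nil_append]
    exact List.Perm.refl _
  | popB i s t o =>
    simp only [tot, List.append_assoc, List.nil_append]
    apply List.Perm.append_left
    rw [← List.append_assoc, ← List.append_assoc]
    exact List.Perm.append_right _ List.perm_append_comm

/-- The list is increasing by steps of one. -/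
def isR (s : List ℕ) : Prop := ∃ a k, s = List.range' a k

lemma isR_tail {x : ℕ} {s : List ℕ} (h : isR (x :: s)) : isR s ∧ (s ≠ [] → x + 1 ∈ s) := by
  obtain ⟨a, k, h⟩ := h
  rcases k with _ | k
  · simp at h
  · rw [List.range'_succ, List.cons.injEq] at h
    obtain ⟨rfl, h⟩ := h
    refine ⟨⟨_, _, h⟩, fun hne => ?_⟩
    rw [h, List.mem_range'_1]
    rcases k with _ | k
    · exact absurd (by simpa using h) hne
    · omega

lemma isR_append {o s : List ℕ} {p : ℕ} (h : o ++ s = List.range' 1 p) :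
    (∃ q, o = List.range' 1 q) ∧ isR s := by
  obtain ⟨k, -, h1, h2⟩ := List.range'_eq_append_iff.1 h.symm
  exact ⟨⟨k, h1⟩, ⟨_, _, h2⟩⟩

theorem sim {n : ℕ} {c : Config}
    (h : ReflTransGen Step c ⟨[], [], [], List.range' 1 n⟩) :
    (∃ p, c.output = List.range' 1 p) ∧ isR c.stackA ∧ isR c.stackB ∧
      (tot c).Perm (List.range' 1 n) ∧
      ∀ N, R c.stackA c.stackB c.output N → BRun n N c.input := by
  induction h using ReflTransGen.head_induction_on with
  | refl =>
    refine ⟨⟨n, rfl⟩, ⟨0, 0, rfl⟩, ⟨0, 0, rfl⟩, by simp [tot], fun N hR => ?_⟩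
    obtain ⟨h1, h2⟩ := hR
    cases N with
    | Z p =>
      have : p = n := by
        have a := h1 n
        have b := h1 p
        simp only [List.mem_range'_1, bread, List.not_mem_nil, or_false] at a b
        omega
      subst this
      exact BRun.nil
    | O p c d =>
      rcases h2.2.2 with ⟨h, -⟩ | ⟨h, -⟩ <;> exact absurd rfl h
    | T p c d f g =>
      rcases h2.2.2.2.2.1 with ⟨h, -⟩ | ⟨h, -⟩ <;> exact absurd rfl h
  | head hstep _ ih =>
    obtain ⟨⟨p, i1⟩, i2, i3, i4, i5⟩ := ih
    have hperm := hstep.tot_perm.trans i4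
    have hnd := hperm.nodup_iff.2 List.nodup_range'
    have hm := fun a => hperm.mem_iff (a := a)
    cases hstep with
    | bypass x i s t o =>
      simp only at i1 i2 i3 i5 ⊢
      have ho := (isR_append i1).1
      refine ⟨ho, i2, i3, hperm, fun N hR => ?_⟩
      have hx1 : 1 ≤ x := by
        have := (hm x).1 (by simp [tot])
        rw [List.mem_range'_1] at this; exact this.1
      simp only [tot] at hnd
      rw [List.nodup_append] at hnd
      obtain ⟨n1, n2, n3⟩ := hnd
      rw [List.nodup_append] at n2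
      obtain ⟨n4, n5, n6⟩ := n2
      rw [List.nodup_append] at n5
      obtain ⟨n7, n8, n9⟩ := n5
      have hxo : x ∉ o := fun h => n3 x h x (by simp) rfl
      have hxs : x ∉ s := fun h => n6 x h x (by simp) rfl
      have hxt : x ∉ t := fun h => n9 x h x (by simp) rfl
      have hlt : ∀ u, 1 ≤ u → u < x → u ∈ o := by
        intro u a b
        have hx' : x ∈ List.range' 1 p := by rw [← i1]; simp
        have hu : u ∈ o ++ [x] := by
          rw [i1, List.mem_range'_1]
          rw [List.mem_range'_1] at hx'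
          omega
        rw [List.mem_append, List.mem_singleton] at hu
        rcases hu with hu | hu
        · exact hu
        · omega
      obtain ⟨N', b1, b2⟩ := R_bypass hR hx1 hxo hxs hxt hlt
      exact BRun.cons b1 (i5 N' b2)
    | pushA x i s t o =>
      simp only at i1 i2 i3 i5 ⊢
      obtain ⟨j1, j2⟩ := isR_tail i2
      refine ⟨⟨p, i1⟩, j1, i3, hperm, fun N hR => ?_⟩
      have hx1 : 1 ≤ x := by
        have := (hm x).1 (by simp [tot])
        rw [List.mem_range'_1] at this; exact this.1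
      simp only [tot] at hnd
      rw [List.nodup_append] at hnd
      obtain ⟨n1, n2, n3⟩ := hnd
      rw [List.nodup_append] at n2
      obtain ⟨n4, n5, n6⟩ := n2
      rw [List.nodup_append] at n5
      obtain ⟨n7, n8, n9⟩ := n5
      have hxo : x ∉ o := fun h => n3 x h x (by simp) rfl
      have hxs : x ∉ s := fun h => n6 x h x (by simp) rfl
      have hxt : x ∉ t := fun h => n9 x h x (by simp) rfl
      obtain ⟨N', b1, b2⟩ := R_push hR hx1 hxo hxs hxt j2
      exact BRun.cons b1 (i5 N' b2)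
    | pushB x i s t o =>
      simp only at i1 i2 i3 i5 ⊢
      obtain ⟨j1, j2⟩ := isR_tail i3
      refine ⟨⟨p, i1⟩, i2, j1, hperm, fun N hR => ?_⟩
      have hx1 : 1 ≤ x := by
        have := (hm x).1 (by simp [tot])
        rw [List.mem_range'_1] at this; exact this.1
      simp only [tot] at hnd
      rw [List.nodup_append] at hnd
      obtain ⟨n1, n2, n3⟩ := hnd
      rw [List.nodup_append] at n2
      obtain ⟨n4, n5, n6⟩ := n2
      rw [List.nodup_append] at n5
      obtain ⟨n7, n8, n9⟩ := n5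
      have hxo : x ∉ o := fun h => n3 x h x (by simp) rfl
      have hxs : x ∉ s := fun h => n6 x h x (by simp) rfl
      have hxt : x ∉ t := fun h => n9 x h x (by simp) rfl
      obtain ⟨N', b1, b2⟩ := R_push hR.symm hx1 hxo hxt hxs j2
      exact BRun.cons b1 (i5 N' b2.symm)
    | popA i s t o =>
      simp only at i1 i2 i3 i5 ⊢
      obtain ⟨j1, j2⟩ := isR_append i1
      refine ⟨j1, j2, i3, hperm, fun N hR => i5 N (R_pop hR ?_)⟩
      intro v hv u a b
      have hv' : v ∈ List.range' 1 p := by rw [← i1]; exact List.mem_append_right _ hv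
      rw [i1, List.mem_range'_1]
      rw [List.mem_range'_1] at hv'
      omega
    | popB i s t o =>
      simp only at i1 i2 i3 i5 ⊢
      obtain ⟨j1, j2⟩ := isR_append i1
      refine ⟨j1, i2, j2, hperm, fun N hR => i5 N (R_pop hR.symm ?_).symm⟩
      intro v hv u a b
      have hv' : v ∈ List.range' 1 p := by rw [← i1]; exact List.mem_append_right _ hv
      rw [i1, List.mem_range'_1]
      rw [List.mem_range'_1] at hv'
      omega

theorem Sortable.brun {l : List ℕ} (h : Sortable l) : BRun l.length (.Z 0) l := by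
  have h1 := (sim h).2.2.2.2 (.Z 0)
  apply h1
  refine ⟨fun v => ?_, trivial⟩
  simp only [bread, List.not_mem_nil, false_or, false_iff]
  omega

end Pool.Agent.Work.MP_95815e_co
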