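import Mathlib
import Pool.Agent.Work.MP_95815e_co.Basic

namespace Pool.Agent.Work.MP_95815e_co

/-- The context: a simple permutation of size at least three. -/
structure Ctx (n : ℕ) (l : List ℕ) : Prop where
  three : 3 ≤ n
  perm : l.Perm (List.range' 1 n)
  simple : Simple l

variable {n : ℕ} {l : List ℕ}

lemma Ctx.nodup (h : Ctx n l) : l.Nodup := h.perm.nodup_iff.2 List.nodup_range'

lemma Ctx.mem (h : Ctx n l) (z : ℕ) : z ∈ l ↔ 1 ≤ z ∧ z ≤ n := by
  rw [h.perm.mem_iff, List.mem_range'_1]; omega

lemma Ctx.length (h : Ctx n l) : l.length = n := by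
  have := h.perm.length_eq
  simpa using this

lemma Ctx.noint (h : Ctx n l) {u v w : List ℕ} {a k : ℕ} (hl : l = u ++ v ++ w)
    (hv : ∀ z, z ∈ v ↔ a ≤ z ∧ z < a + k) (hk : 2 ≤ k) (hkn : k < n) : False := by
  have hnd : v.Nodup := by
    have := h.nodup
    rw [hl, List.append_assoc] at this
    exact (List.nodup_append.1 (List.nodup_append.1 this).2.1).1
  have hp : v.Perm (List.range' a k) := by
    rw [List.perm_ext_iff_of_nodup hnd List.nodup_range']
    intro z
    rw [hv, List.mem_range'_1]
  have hlen : v.length = k := by
    have := hp.length_eq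
    simpa using this
  have hp' := hp
  rw [← hlen] at hp'
  rcases h.simple u v w a hl hp' with h1 | h1
  · omega
  · rw [h.length] at h1; omega

lemma Ctx.adj (h : Ctx n l) {u w : List ℕ} {z y : ℕ} (hl : l = (u ++ [z]) ++ (y :: w))
    (hzy : y = z + 1 ∨ z = y + 1) : False := by
  have h3 := h.three
  have hl' : l = u ++ [z, y] ++ w := by rw [hl]; simp
  rcases hzy with hzy | hzy
  · apply h.noint (a := z) (k := 2) hl' _ le_rfl (by omega)
    intro v
    simp only [List.mem_cons, List.not_mem_nil, or_false]
    omega
  · apply h.noint (a := y) (k := 2) hl' _ le_rfl (by omega)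
    intro v
    simp only [List.mem_cons, List.not_mem_nil, or_false]
    omega

lemma Ctx.mem_left (h : Ctx n l) {u v : List ℕ} (hl : l = u ++ v) (z : ℕ) :
    z ∈ u ↔ (1 ≤ z ∧ z ≤ n) ∧ z ∉ v := by
  have hnd := h.nodup
  rw [hl] at hnd
  have hdis := List.disjoint_of_nodup_append hnd
  rw [← h.mem z, hl, List.mem_append]
  constructor
  · intro hz
    exact ⟨Or.inl hz, fun hz' => hdis hz hz'⟩
  · rintro ⟨hz | hz, hz'⟩
    · exact hz
    · exact absurd hz hz'

lemma Ctx.nodup_right (h : Ctx n l) {u v : List ℕ} (hl : l = u ++ v) : v.Nodup := by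
  have hnd := h.nodup
  rw [hl] at hnd
  exact (List.nodup_append.1 hnd).2.1

lemma blocked_aux : ∀ (t : List ℕ) (o c d g : ℕ), t.Nodup → BRun n (.T o c d (d + 1) g) t →
    (∀ v, v ∈ t ↔ (o < v ∧ v < c) ∨ (g < v ∧ v ≤ n)) → o + 1 < c → c ≤ d → d < g →
    ∃ v t', t = v ++ t' ∧ (∀ z, z ∈ v ↔ o + 1 ≤ z ∧ z < c) ∧
      (∀ z, z ∈ t' ↔ g < z ∧ z ≤ n) := by
  intro t
  induction t with
  | nil =>
    intro o c d g _ hr
    cases hr
  | cons y t ih =>
    intro o c d g hnd hr hm hoc hcd hdg
    rw [List.nodup_cons] at hnd
    cases hr with
    | cons ht hr =>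
      cases ht with
      | t1 _ _ _ _ _ _ h =>
        refine ⟨[y], t, rfl, ?_, ?_⟩
        · intro z; rw [List.mem_singleton]; omega
        · intro z
          have h1 := hm z
          rw [List.mem_cons] at h1
          constructor
          · intro hz
            have h2 := h1.1 (Or.inr hz)
            have h3 : z ≠ y := fun e => hnd.1 (e ▸ hz)
            omega
          · intro hz
            have h2 := h1.2 (Or.inr hz)
            rcases h2 with h2 | h2
            · omega
            · exact h2
      | t2 _ _ _ _ _ _ h => omega
      | t3 _ _ _ _ _ _ h =>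
        obtain ⟨v, t', e1, e2, e3⟩ := ih y c d g hnd.2 hr (by
          intro z
          have h1 := hm z
          rw [List.mem_cons] at h1
          constructor
          · intro hz
            have h2 := h1.1 (Or.inr hz)
            have h3 : z ≠ y := fun e => hnd.1 (e ▸ hz)
            omega
          · intro hz
            have h2 := h1.2 (by omega)
            rcases h2 with h2 | h2
            · omega
            · exact h2) (by omega) hcd hdg
        refine ⟨y :: v, t', by rw [e1]; rfl, ?_, e3⟩
        intro z
        rw [List.mem_cons, e2]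
        omega
      | t4 _ _ _ _ _ _ h =>
        obtain ⟨v, t', e1, e2, e3⟩ := ih o y d g hnd.2 hr (by
          intro z
          have h1 := hm z
          rw [List.mem_cons] at h1
          constructor
          · intro hz
            have h2 := h1.1 (Or.inr hz)
            have h3 : z ≠ y := fun e => hnd.1 (e ▸ hz)
            omega
          · intro hz
            have h2 := h1.2 (by omega)
            rcases h2 with h2 | h2
            · omega
            · exact h2) (by omega) (by omega) hdg
        refine ⟨y :: v, t', by rw [e1]; rfl, ?_, e3⟩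
        intro z
        rw [List.mem_cons, e2]
        omega
      | t5 _ _ _ _ _ _ h => omega

lemma Ctx.blocked (h : Ctx n l) {u t : List ℕ} {o c d g : ℕ} (hl : l = u ++ t)
    (hr : BRun n (.T o c d (d + 1) g) t)
    (hm : ∀ v, v ∈ t ↔ (o < v ∧ v < c) ∨ (g < v ∧ v ≤ n)) (hoc : o + 1 < c) (hcd : c ≤ d)
    (hdg : d < g) (hgn : g ≤ n) : c = o + 2 ∧ g = n ∧ t = [o + 1] := by
  have hnd := h.nodup_right hl
  obtain ⟨v, t', e1, e2, e3⟩ := blocked_aux t o c d g hnd hr hm hoc hcd hdg
  have hc : c = o + 2 := by
    by_contra hne
    apply h.noint (u := u) (v := v) (w := t') (a := o + 1) (k := c - (o + 1))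
      (by rw [hl, e1, List.append_assoc]) _ (by omega) (by omega)
    intro z; rw [e2]; omega
  have hv : v = [o + 1] := by
    have hvn : v.Nodup := by rw [e1] at hnd; exact (List.nodup_append.1 hnd).1
    have hp : v.Perm (List.range' (o + 1) 1) := by
      rw [List.perm_ext_iff_of_nodup hvn List.nodup_range']
      intro z
      rw [e2, List.mem_range'_1]; omega
    simpa using hp
  have ht' : t' = [] := by
    by_contra hne
    obtain ⟨y, hy⟩ := List.exists_mem_of_ne_nil _ hne
    have hy' := (e3 y).1 hy
    have hl' : l = (u ++ v) ++ t' := by rw [hl, e1, List.append_assoc]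
    apply h.noint (u := []) (v := u ++ v) (w := t') (a := 1) (k := g)
      (by rw [hl']; simp) _ (by omega) (by omega)
    intro z
    rw [h.mem_left hl', e3]; omega
  refine ⟨hc, ?_, by rw [e1, hv, ht']; rfl⟩
  by_contra hne
  have := (e3 n).2 (by omega)
  rw [ht'] at this
  simp at this

/-- `z` is the last entry of `u`. -/
def Last (u : List ℕ) (z : ℕ) : Prop := ∃ u0, u = u0 ++ [z]

lemma last_concat (u : List ℕ) (z : ℕ) : Last (u ++ [z]) z := ⟨u, rfl⟩

lemma Ctx.adj' (h : Ctx n l) {u t : List ℕ} {z y : ℕ} (hl : l = u ++ (y :: t)) (hu : Last u z)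
    (hzy : y = z + 1 ∨ z = y + 1) : False := by
  obtain ⟨u0, rfl⟩ := hu
  exact h.adj hl hzy

/-- The invariant relating the two automata. -/
def Inv (n : ℕ) (u t : List ℕ) (N : BS) : St → Prop
  | .S => u = [] ∧ N = .Z 0
  | .AP c => u = [c] ∧ N = .O 0 c c ∧ 1 < c ∧ c < n
  | .A b o c d => N = .O o c d ∧ (1 ≤ o ∧ o + 1 < c ∧ c ≤ d ∧ d < n) ∧
      (b = .L → Last u o) ∧ (b = .R → Last u c)
  | .B b o c d e g => N = .T o c d e g ∧ (o + 1 < c ∧ c ≤ d ∧ d + 1 < e ∧ e ≤ g ∧ g < n) ∧
      (b = .L → Last u o) ∧ (b = .R → Last u c) ∧ (b = .r → Last u e) ∧ b ≠ .n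
  | .C b o c d e => N = .T o c d e n ∧ (1 ≤ o ∧ o + 1 < c ∧ c ≤ d ∧ d + 1 < e ∧ e ≤ n) ∧
      (b = .L → Last u o) ∧ (b = .R → Last u c) ∧ (b = .r → Last u e) ∧ b ≠ .n
  | .C' b c d e => N = .T 0 c d e n ∧ (1 < c ∧ c ≤ d ∧ d + 1 < e ∧ e ≤ n) ∧
      (b = .R → Last u c) ∧ (b = .r → Last u e) ∧ b ≠ .n ∧ b ≠ .L
  | .D x => t = [x] ∧ 1 < x ∧ x < n
  | .E => t = []

lemma mem_tail {s s' : St} {x : ℕ} {m : Mv} {t : List ℕ} (ht : Tr n s x m s')
    (hnd : (x :: t).Nodup) (hm : ∀ v, v ∈ x :: t ↔ unread n s v) :
    ∀ v, v ∈ t ↔ unread n s' v := by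
  intro v
  rw [List.nodup_cons] at hnd
  have h1 := hm v
  rw [List.mem_cons, ht.unread_iff] at h1
  by_cases hv : v = x
  · subst hv
    exact ⟨fun h => absurd h hnd.1, fun h => absurd h ht.not_unread⟩
  · constructor
    · intro h
      exact (h1.1 (Or.inr h)).resolve_left hv
    · intro h
      exact (h1.2 (Or.inr h)).resolve_left hv

lemma Ctx.refine (h : Ctx n l) : ∀ (t u : List ℕ) (s : St) (N : BS), l = u ++ t → BRun n N t →
    (∀ v, v ∈ t ↔ unread n s v) → Inv n u t N s → ∃ w, Run n s t w := by
  have h3 := h.three
  intro t
  induction t with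
  | nil =>
    intro u s N hl hr hm hI
    cases s with
    | S => have := (hm 1).2 (by simp only [unread]; omega); simp at this
    | AP c => have := (hm 1).2 (by simp only [Inv] at hI; simp only [unread]; omega); simp at this
    | A b o c d =>
      have := (hm (o + 1)).2 (by simp only [Inv] at hI; simp only [unread]; omega); simp at this
    | B b o c d e g =>
      have := (hm (o + 1)).2 (by simp only [Inv] at hI; simp only [unread]; omega); simp at this
    | C b o c d e =>
      have := (hm (o + 1)).2 (by simp only [Inv] at hI; simp only [unread]; omega); simp at this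
    | C' b c d e =>
      have := (hm 1).2 (by simp only [Inv] at hI; simp only [unread]; omega); simp at this
    | D x => simp only [Inv] at hI; simp at hI
    | E => exact ⟨[], Run.nil⟩
  | cons y t ih =>
    intro u s N hl hr hm hI
    have hnd := h.nodup_right hl
    have hl' : l = (u ++ [y]) ++ t := by rw [hl]; simp
    have hy := (hm y).1 (by simp)
    -- the step
    have go : ∀ (m : Mv) (s' : St) (N' : BS), Tr n s y m s' → BRun n N' t →
        Inv n (u ++ [y]) t N' s' → ∃ w, Run n s (y :: t) w := by
      intro m s' N' ht hr' hI'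
      obtain ⟨w, hw⟩ := ih (u ++ [y]) s' N' hl' hr' (mem_tail ht hnd hm) hI'
      exact ⟨m :: w, Run.cons ht hw⟩
    have hyt : y ∉ t := (List.nodup_cons.1 hnd).1
    have hmt : ∀ v, v ∈ t ↔ (unread n s v ∧ v ≠ y) := by
      intro v
      have h1 := hm v
      rw [List.mem_cons] at h1
      constructor
      · intro hv
        exact ⟨h1.1 (Or.inr hv), fun e => hyt (e ▸ hv)⟩
      · rintro ⟨hv, hne⟩
        exact (h1.2 hv).resolve_left hne
    cases hr with
    | cons htr hr =>
    cases s with
    | S =>
      obtain ⟨rfl, rfl⟩ := hI
      cases htr with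
      | z1 _ _ hh =>
        exfalso
        apply h.noint (u := [y]) (v := t) (w := []) (a := 2) (k := n - 1)
          (by rw [hl]; simp) _ (by omega) (by omega)
        intro z; rw [hmt]; simp only [unread]; omega
      | z2 _ _ hh =>
        simp only [unread] at hy
        by_cases hyn : y = n
        · exfalso
          apply h.noint (u := [y]) (v := t) (w := []) (a := 1) (k := n - 1)
            (by rw [hl]; simp) _ (by omega) (by omega)
          intro z; rw [hmt]; simp only [unread]; omega
        · exact go _ _ _ (Tr.sP y ⟨by omega, by omega⟩) hr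
            ⟨rfl, rfl, by omega, by omega⟩
    | AP c =>
      obtain ⟨rfl, rfl, hc1, hc2⟩ := hI
      have hlast : Last [c] c := ⟨[], rfl⟩
      simp only [unread] at hy
      cases htr with
      | o1 _ _ _ _ hh => exact (h.adj' hl hlast (by omega)).elim
      | o2 _ _ _ _ hh =>
        exact go _ _ _ (Tr.apL c y ⟨by omega, by omega, by omega⟩) hr
          ⟨rfl, by omega, fun _ => last_concat _ _, by simp⟩
      | o3 _ _ _ _ hh => exact (h.adj' hl hlast (by omega)).elim
      | o4 _ _ _ _ hh =>
        exact go _ _ _ (Tr.apM c y ⟨by omega, by omega, by omega⟩) hr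
          ⟨rfl, by omega, by simp, fun _ => last_concat _ _, by simp, by simp⟩
      | o5 _ _ _ _ hh =>
        by_cases hy1 : y = c + 1
        · exact (h.adj' hl hlast (by omega)).elim
        by_cases hyn : y = n
        · subst hyn
          exact go _ _ _ (Tr.apV c y ⟨by omega, by omega, rfl⟩) hr
            ⟨rfl, by omega, by simp, fun _ => last_concat _ _, by simp, by simp⟩
        · exact go _ _ _ (Tr.apU c y ⟨by omega, by omega, by omega⟩) hr
            ⟨rfl, by omega, by simp, by simp, fun _ => last_concat _ _, by simp⟩
    | A b o c d =>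
      obtain ⟨rfl, hv, hL, hR⟩ := hI
      simp only [unread] at hy
      cases htr with
      | o1 _ _ _ _ hh =>
        exfalso
        apply h.noint (u := []) (v := u ++ [y]) (w := t) (a := 1) (k := d)
          (by rw [hl']; simp) _ (by omega) (by omega)
        intro z
        rw [h.mem_left hl', hmt]; simp only [unread]; omega
      | o2 _ _ _ _ hh =>
        by_cases hb : b = .L
        · exact (h.adj' hl (hL hb) (by omega)).elim
        · exact go _ _ _ (Tr.aL b o c d y hb ⟨by omega, by omega, by omega, by omega, by omega⟩) hr
            ⟨rfl, by omega, fun _ => last_concat _ _, by simp⟩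
      | o3 _ _ _ _ hh =>
        by_cases hb : b = .R
        · exact (h.adj' hl (hR hb) (by omega)).elim
        · exact go _ _ _ (Tr.aR b o c d y hb ⟨by omega, by omega, by omega, by omega, by omega⟩) hr
            ⟨rfl, by omega, by simp, fun _ => last_concat _ _⟩
      | o4 _ _ _ _ hh =>
        exact go _ _ _ (Tr.aM b o c d y ⟨by omega, by omega, by omega, by omega, by omega⟩) hr
          ⟨rfl, by omega, by simp, fun _ => last_concat _ _, by simp, by simp⟩
      | o5 _ _ _ _ hh =>
        by_cases hy1 : y = d + 1
        · subst hy1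
          obtain ⟨e1, e2, e3⟩ := h.blocked hl' hr (by
            intro v; rw [hmt]; simp only [unread]; omega) (by omega) (by omega) (by omega)
            (by omega)
          exact go _ _ _ (Tr.au b o c d (d + 1) ⟨by omega, by omega, by omega, rfl, by omega⟩) hr
            ⟨e3, by omega, by omega⟩
        by_cases hyn : y = n
        · subst hyn
          exact go _ _ _ (Tr.aV b o c d y ⟨by omega, by omega, by omega, by omega, rfl⟩) hr
            ⟨rfl, by omega, by simp, by simp, fun _ => last_concat _ _, by simp⟩
        · exact go _ _ _ (Tr.aU b o c d y ⟨by omega, by omega, by omega, by omega, by omega⟩) hr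
            ⟨rfl, by omega, by simp, by simp, fun _ => last_concat _ _, by simp⟩
    | B b o c d e g =>
      obtain ⟨rfl, hv, hL, hR, hr', hbn⟩ := hI
      simp only [unread] at hy
      cases htr with
      | t1 _ _ _ _ _ _ hh => omega
      | t2 _ _ _ _ _ _ hh =>
        have hb : b = .r := by
          cases b with
          | n => exact absurd rfl hbn
          | L => exact (h.adj' hl (hL rfl) (by omega)).elim
          | R => exact (h.adj' hl (hR rfl) (by omega)).elim
          | r => rfl
        exact go _ _ _ (Tr.bF b o c d e g y hb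
          ⟨by omega, by omega, by omega, by omega, by omega, by omega⟩) hr
          ⟨rfl, by omega, by simp, by simp⟩
      | t3 _ _ _ _ _ _ hh =>
        by_cases hb : b = .L
        · exact (h.adj' hl (hL hb) (by omega)).elim
        · exact go _ _ _ (Tr.bL b o c d e g y hb
            ⟨by omega, by omega, by omega, by omega, by omega, by omega⟩) hr
            ⟨rfl, by omega, fun _ => last_concat _ _, by simp, by simp, by simp⟩
      | t4 _ _ _ _ _ _ hh =>
        by_cases hb : b = .R
        · exact (h.adj' hl (hR hb) (by omega)).elim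
        · exact go _ _ _ (Tr.bR b o c d e g y hb
            ⟨by omega, by omega, by omega, by omega, by omega, by omega⟩) hr
            ⟨rfl, by omega, by simp, fun _ => last_concat _ _, by simp, by simp⟩
      | t5 _ _ _ _ _ _ hh =>
        by_cases hb : b = .r
        · exact (h.adj' hl (hr' hb) (by omega)).elim
        by_cases hy1 : y = d + 1
        · subst hy1
          obtain ⟨e1, e2, e3⟩ := h.blocked hl' hr (by
            intro v; rw [hmt]; simp only [unread]; omega) (by omega) (by omega) (by omega)
            (by omega)
          omega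
        · exact go _ _ _ (Tr.br b o c d e g y hb
            ⟨by omega, by omega, by omega, by omega, by omega, by omega⟩) hr
            ⟨rfl, by omega, by simp, by simp, fun _ => last_concat _ _, by simp⟩
    | C b o c d e =>
      obtain ⟨rfl, hv, hL, hR, hr', hbn⟩ := hI
      simp only [unread] at hy
      cases htr with
      | t1 _ _ _ _ _ _ hh => omega
      | t2 _ _ _ _ _ _ hh =>
        have hb : b = .r := by
          cases b with
          | n => exact absurd rfl hbn
          | L => exact (h.adj' hl (hL rfl) (by omega)).elim
          | R => exact (h.adj' hl (hR rfl) (by omega)).elim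
          | r => rfl
        have he : e = d + 2 := by
          by_contra hne
          apply h.noint (u := u ++ [y]) (v := t) (w := []) (a := d + 1) (k := e - (d + 1))
            (by rw [hl']; simp) _ (by omega) (by omega)
          intro z
          rw [hmt]; simp only [unread]; omega
        have ht1 : t = [d + 1] := by
          have hp : t.Perm (List.range' (d + 1) 1) := by
            rw [List.perm_ext_iff_of_nodup (List.nodup_cons.1 hnd).2 List.nodup_range']
            intro z
            rw [hmt, List.mem_range'_1]; simp only [unread]; omega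
          simpa using hp
        exact go _ _ _ (Tr.cF b o c d e y hb
          ⟨by omega, by omega, by omega, by omega, by omega, by omega⟩) hr
          ⟨ht1, by omega, by omega⟩
      | t3 _ _ _ _ _ _ hh =>
        by_cases hb : b = .L
        · exact (h.adj' hl (hL hb) (by omega)).elim
        · exact go _ _ _ (Tr.cL b o c d e y hb
            ⟨by omega, by omega, by omega, by omega, by omega, by omega⟩) hr
            ⟨rfl, by omega, fun _ => last_concat _ _, by simp, by simp, by simp⟩
      | t4 _ _ _ _ _ _ hh =>
        by_cases hb : b = .R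
        · exact (h.adj' hl (hR hb) (by omega)).elim
        · exact go _ _ _ (Tr.cR b o c d e y hb
            ⟨by omega, by omega, by omega, by omega, by omega, by omega⟩) hr
            ⟨rfl, by omega, by simp, fun _ => last_concat _ _, by simp, by simp⟩
      | t5 _ _ _ _ _ _ hh =>
        by_cases hb : b = .r
        · exact (h.adj' hl (hr' hb) (by omega)).elim
        by_cases hy1 : y = d + 1
        · subst hy1
          obtain ⟨e1, e2, e3⟩ := h.blocked hl' hr (by
            intro v; rw [hmt]; simp only [unread]; omega) (by omega) (by omega) (by omega)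
            (by omega)
          exact go _ _ _ (Tr.cf b o c d e (d + 1) hb
            ⟨by omega, by omega, by omega, by omega, by omega, by omega⟩) hr
            ⟨e3, by omega, by omega⟩
        · exact go _ _ _ (Tr.cr b o c d e y hb
            ⟨by omega, by omega, by omega, by omega, by omega, by omega⟩) hr
            ⟨rfl, by omega, by simp, by simp, fun _ => last_concat _ _, by simp⟩
    | C' b c d e =>
      obtain ⟨rfl, hv, hR, hr', hbn, hbL⟩ := hI
      simp only [unread] at hy
      cases htr with
      | t1 _ _ _ _ _ _ hh => omega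
      | t2 _ _ _ _ _ _ hh =>
        have hb : b = .r := by
          cases b with
          | n => exact absurd rfl hbn
          | L => exact absurd rfl hbL
          | R => exact (h.adj' hl (hR rfl) (by omega)).elim
          | r => rfl
        have he : e = d + 2 := by
          by_contra hne
          apply h.noint (u := u ++ [y]) (v := t) (w := []) (a := d + 1) (k := e - (d + 1))
            (by rw [hl']; simp) _ (by omega) (by omega)
          intro z
          rw [hmt]; simp only [unread]; omega
        have ht1 : t = [d + 1] := by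
          have hp : t.Perm (List.range' (d + 1) 1) := by
            rw [List.perm_ext_iff_of_nodup (List.nodup_cons.1 hnd).2 List.nodup_range']
            intro z
            rw [hmt, List.mem_range'_1]; simp only [unread]; omega
          simpa using hp
        exact go _ _ _ (Tr.dF b c d e y hb
          ⟨by omega, by omega, by omega, by omega, by omega⟩) hr
          ⟨ht1, by omega, by omega⟩
      | t3 _ _ _ _ _ _ hh =>
        exact go _ _ _ (Tr.dL b c d e y
            ⟨by omega, by omega, by omega, by omega, by omega⟩) hr
            ⟨rfl, by omega, fun _ => last_concat _ _, by simp, by simp, by simp⟩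
      | t4 _ _ _ _ _ _ hh =>
        by_cases hb : b = .R
        · exact (h.adj' hl (hR hb) (by omega)).elim
        · exact go _ _ _ (Tr.dR b c d e y hb
            ⟨by omega, by omega, by omega, by omega, by omega⟩) hr
            ⟨rfl, by omega, fun _ => last_concat _ _, by simp, by simp, by simp⟩
      | t5 _ _ _ _ _ _ hh =>
        by_cases hb : b = .r
        · exact (h.adj' hl (hr' hb) (by omega)).elim
        by_cases hy1 : y = d + 1
        · subst hy1
          obtain ⟨e1, e2, e3⟩ := h.blocked hl' hr (by
            intro v; rw [hmt]; simp only [unread]; omega) (by omega) (by omega) (by omega)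
            (by omega)
          exfalso
          apply h.noint (u := []) (v := u ++ [d + 1]) (w := t) (a := 2) (k := n - 1)
            (by rw [hl']; simp) _ (by omega) (by omega)
          intro z
          rw [h.mem_left hl', hmt]; simp only [unread]; omega
        · exact go _ _ _ (Tr.dr b c d e y hb
            ⟨by omega, by omega, by omega, by omega, by omega⟩) hr
            ⟨rfl, by omega, by simp, fun _ => last_concat _ _, by simp, by simp⟩
    | D x =>
      obtain ⟨h1, h2, h3'⟩ := hI
      rw [List.cons.injEq] at h1
      obtain ⟨rfl, rfl⟩ := h1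
      exact ⟨[.Z], Run.cons (Tr.z y ⟨h2, h3'⟩) Run.nil⟩
    | E => simp only [Inv] at hI; simp at hI

theorem exists_run (hn : 3 ≤ n) (hp : l.Perm (List.range' 1 n)) (hs : Simple l)
    (hso : Sortable l) : ∃ w, Run n .S l w := by
  have hctx : Ctx n l := ⟨hn, hp, hs⟩
  have hb := hso.brun
  rw [hctx.length] at hb
  apply hctx.refine l [] .S (.Z 0) rfl hb _ ⟨rfl, rfl⟩
  intro v
  rw [hctx.mem]; rfl

end Pool.Agent.Work.MP_95815e_co
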