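import Mathlib
import Pool.Agent.Work.MP_95815e_co.Refine

namespace Pool.Agent.Work.MP_95815e_co

instance : Fintype Mv :=
  ⟨{.P, .L, .R, .M, .U, .V, .u, .r, .F, .f, .Z}, by intro x; cases x <;> decide⟩

/-- Kinds of states. -/
inductive K | S | AP | A (b : Bl) | B (b : Bl) | C (b : Bl) | C' (b : Bl) | D | E
  deriving DecidableEq

/-- The kind of a state. -/
def kind : St → K
  | .S => .S
  | .AP _ => .AP
  | .A b _ _ _ => .A b
  | .B b _ _ _ _ _ => .B b
  | .C b _ _ _ _ => .C b
  | .C' b _ _ _ => .C' b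
  | .D _ => .D
  | .E => .E

/-- Transitions between kinds. -/
def dl : K → Mv → Option K
  | .S, .P => some .AP
  | .AP, .L => some (.A .L)
  | .AP, .M => some (.B .R)
  | .AP, .U => some (.B .r)
  | .AP, .V => some (.C' .r)
  | .A b, .L => if b = .L then none else some (.A .L)
  | .A b, .R => if b = .R then none else some (.A .R)
  | .A _, .M => some (.B .R)
  | .A _, .U => some (.B .r)
  | .A _, .V => some (.C .r)
  | .A _, .u => some .D
  | .B b, .L => if b = .L then none else some (.B .L)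
  | .B b, .R => if b = .R then none else some (.B .R)
  | .B b, .r => if b = .r then none else some (.B .r)
  | .B b, .F => if b = .r then some (.A .n) else none
  | .C b, .L => if b = .L then none else some (.C .L)
  | .C b, .R => if b = .R then none else some (.C .R)
  | .C b, .r => if b = .r then none else some (.C .r)
  | .C b, .F => if b = .r then some .D else none
  | .C b, .f => if b = .r then none else some .D
  | .C' _, .L => some (.C .L)
  | .C' b, .R => if b = .R then none else some (.C' .R)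
  | .C' b, .r => if b = .r then none else some (.C' .r)
  | .C' b, .F => if b = .r then some .D else none
  | .D, .Z => some .E
  | _, _ => none

/-- Accepted words. -/
def acc : K → List Mv → Prop
  | k, [] => k = .E
  | k, m :: w => ∃ k', dl k m = some k' ∧ acc k' w

/-- How sizes of the gaps change. -/
def upd : Mv → ℕ × ℕ × ℕ → ℕ × ℕ × ℕ
  | .P, (a, _, c) => (a + 1 + c, 0, 0)
  | .L, (a, b, c) => (a + 1, b, c)
  | .R, (a, b, c) => (a + 1, b, c)
  | .M, (a, b, c) => (a + 1 + b, 0, c)
  | .U, (a, b, c) => (a, 0, b + 1 + c)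
  | .V, (a, b, c) => (a, 0, b + 1 + c)
  | .u, _ => (1, 0, 1)
  | .r, (a, b, c) => (a, b + 1, c)
  | .F, (a, _, c) => (1, a, c)
  | .f, _ => (1, 1, 0)
  | .Z, _ => (1, 0, 0)

/-- Sizes of the gaps determined by a word. -/
def sz : List Mv → ℕ × ℕ × ℕ
  | [] => (0, 0, 0)
  | m :: w => upd m (sz w)

/-- Sizes of the gaps of a state. -/
def size (n : ℕ) : St → ℕ × ℕ × ℕ
  | .S => (n, 0, 0)
  | .AP c => (c - 1, 0, n - c)
  | .A _ o c d => (c - 1 - o, 0, n - d)
  | .B _ o c d e g => (c - 1 - o, e - 1 - d, n - g)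
  | .C _ o c d e => (c - 1 - o, e - 1 - d, 0)
  | .C' _ c d e => (c - 1, e - 1 - d, 0)
  | .D _ => (1, 0, 0)
  | .E => (0, 0, 0)

lemma Tr.size_eq {n : ℕ} {s s' : St} {x : ℕ} {m : Mv} (h : Tr n s x m s') :
    size n s = upd m (size n s') := by
  cases h <;> refine Prod.ext ?_ (Prod.ext ?_ ?_) <;> simp only [size, upd] <;> omega

lemma Tr.dl_eq {n : ℕ} {s s' : St} {x : ℕ} {m : Mv} (h : Tr n s x m s') :
    dl (kind s) m = some (kind s') := by
  cases h <;> simp_all [dl, kind]

lemma Run.size_eq {n : ℕ} {s : St} {l : List ℕ} {w : List Mv} (h : Run n s l w) :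
    size n s = sz w ∧ acc (kind s) w := by
  induction h with
  | nil => exact ⟨rfl, rfl⟩
  | cons ht _ ih => exact ⟨by rw [ht.size_eq, ih.1]; rfl, _, ht.dl_eq, ih.2⟩

lemma tr_det_word {n : ℕ} {s s' s'' : St} {x : ℕ} {m m' : Mv} (h : Tr n s x m s')
    (h' : Tr n s x m' s'') : m = m' ∧ s' = s'' := by
  cases h <;> cases h' <;> first | exact ⟨rfl, rfl⟩ | omega | simp_all

lemma tr_det_val {n : ℕ} {s s' s'' : St} {x x' : ℕ} {m : Mv} (h : Tr n s x m s')
    (h' : Tr n s x' m s'') (hs : size n s' = size n s'') : x = x' ∧ s' = s'' := by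
  cases h <;> cases h' <;> simp only [size, Prod.mk.injEq] at hs <;>
    first | exact ⟨rfl, rfl⟩ | (refine ⟨by omega, ?_⟩; congr 1 <;> omega) | omega

/-- Positivity of the sizes, by kind. -/
def pos : K → ℕ × ℕ × ℕ → Prop
  | .S, _ => True
  | .AP, (a, b, c) => 1 ≤ a ∧ b = 0 ∧ 1 ≤ c
  | .A _, (a, b, c) => 1 ≤ a ∧ b = 0 ∧ 1 ≤ c
  | .B _, (a, b, c) => 1 ≤ a ∧ 1 ≤ b ∧ 1 ≤ c
  | .C _, (a, b, c) => 1 ≤ a ∧ 1 ≤ b ∧ c = 0
  | .C' _, (a, b, c) => 1 ≤ a ∧ 1 ≤ b ∧ c = 0
  | .D, (a, b, c) => a = 1 ∧ b = 0 ∧ c = 0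
  | .E, (a, b, c) => a = 0 ∧ b = 0 ∧ c = 0

lemma dl_pos {k k' : K} {m : Mv} {t : ℕ × ℕ × ℕ} (h : dl k m = some k') (hp : pos k' t) :
    pos k (upd m t) ∧ (upd m t).1 + (upd m t).2.1 + (upd m t).2.2 = t.1 + t.2.1 + t.2.2 + 1 := by
  obtain ⟨a, b, c⟩ := t
  cases k <;> cases m <;> simp only [dl, reduceCtorEq] at h <;>
    (try split_ifs at h) <;> simp only [Option.some.injEq] at h <;> subst h <;>
    simp only [pos, upd, true_and] at hp ⊢ <;> first | omega | simp_all

lemma acc_pos : ∀ (w : List Mv) (k : K), acc k w →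
    pos k (sz w) ∧ (sz w).1 + (sz w).2.1 + (sz w).2.2 = w.length := by
  intro w
  induction w with
  | nil => intro k h; simp only [acc] at h; subst h; simp [pos, sz]
  | cons m w ih =>
    intro k h
    obtain ⟨k', h1, h2⟩ := h
    obtain ⟨i1, i2⟩ := ih k' h2
    obtain ⟨j1, j2⟩ := dl_pos h1 i1
    refine ⟨j1, ?_⟩
    simp only [sz, List.length_cons]
    omega

/-- Numerical validity of a state. -/
def valid (n : ℕ) : St → Prop
  | .S => True
  | .AP _ => True
  | .A _ o c d => 1 ≤ o ∧ c ≤ d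
  | .B _ _ c d e g => c ≤ d ∧ e ≤ g
  | .C _ o c d e => 1 ≤ o ∧ c ≤ d ∧ e ≤ n
  | .C' _ c d e => c ≤ d ∧ e ≤ n
  | .D x => 1 < x ∧ x < n
  | .E => True

lemma exists_tr {n : ℕ} {s : St} {k' : K} {m : Mv} {a b c : ℕ} (hd : dl (kind s) m = some k')
    (hp : pos k' (a, b, c)) (hv : valid n s) (hs : size n s = upd m (a, b, c)) :
    ∃ x s', Tr n s x m s' ∧ kind s' = k' ∧ valid n s' ∧ size n s' = (a, b, c) := by
  cases s with
  | S =>
    cases m <;> simp only [kind, dl, reduceCtorEq] at hd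
    simp only [Option.some.injEq] at hd
    subst hd
    simp only [size, upd, Prod.mk.injEq, pos] at hs hp
    refine ⟨a + 1, .AP (a + 1), Tr.sP _ (by omega), rfl, trivial, ?_⟩
    simp only [size, Prod.mk.injEq]; omega
  | AP e =>
    cases m <;> simp only [kind, dl, reduceCtorEq] at hd
    all_goals
      simp only [Option.some.injEq] at hd
      subst hd
      simp only [size, upd, Prod.mk.injEq, pos] at hs hp
    · refine ⟨1, .A .L 1 e e, Tr.apL _ _ (by omega), rfl, ⟨le_rfl, le_rfl⟩, ?_⟩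
      simp only [size, Prod.mk.injEq]; omega
    · refine ⟨a + 1, _, Tr.apM e (a + 1) (by omega), rfl, ⟨le_rfl, le_rfl⟩, ?_⟩
      simp only [size, Prod.mk.injEq]; omega
    · refine ⟨e + b + 1, _, Tr.apU e (e + b + 1) (by omega), rfl, ⟨le_rfl, le_rfl⟩, ?_⟩
      simp only [size, Prod.mk.injEq]; omega
    · refine ⟨n, _, Tr.apV e n (by omega), rfl, ⟨le_rfl, le_rfl⟩, ?_⟩
      simp only [size, Prod.mk.injEq]; omega
  | A bl o e f =>
    cases m <;> simp only [kind, dl, reduceCtorEq] at hd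
    · -- L
      split_ifs at hd with hb
      simp only [Option.some.injEq] at hd
      subst hd
      simp only [size, upd, Prod.mk.injEq, pos, valid] at hs hp hv
      refine ⟨o + 1, _, Tr.aL bl o e f (o + 1) hb (by omega), rfl, ⟨by omega, by omega⟩, ?_⟩
      simp only [size, Prod.mk.injEq]; omega
    · -- R
      split_ifs at hd with hb
      simp only [Option.some.injEq] at hd
      subst hd
      simp only [size, upd, Prod.mk.injEq, pos, valid] at hs hp hv
      refine ⟨e - 1, _, Tr.aR bl o e f (e - 1) hb (by omega), rfl, ⟨by omega, by omega⟩, ?_⟩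
      simp only [size, Prod.mk.injEq]; omega
    · -- M
      simp only [Option.some.injEq] at hd
      subst hd
      simp only [size, upd, Prod.mk.injEq, pos, valid] at hs hp hv
      refine ⟨o + a + 1, _, Tr.aM bl o e f (o + a + 1) (by omega), rfl,
        ⟨le_rfl, by omega⟩, ?_⟩
      simp only [size, Prod.mk.injEq]; omega
    · -- U
      simp only [Option.some.injEq] at hd
      subst hd
      simp only [size, upd, Prod.mk.injEq, pos, valid] at hs hp hv
      refine ⟨f + b + 1, _, Tr.aU bl o e f (f + b + 1) (by omega), rfl,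
        ⟨by omega, le_rfl⟩, ?_⟩
      simp only [size, Prod.mk.injEq]; omega
    · -- V
      simp only [Option.some.injEq] at hd
      subst hd
      simp only [size, upd, Prod.mk.injEq, pos, valid] at hs hp hv
      refine ⟨n, _, Tr.aV bl o e f n (by omega), rfl, ⟨by omega, by omega, le_rfl⟩, ?_⟩
      simp only [size, Prod.mk.injEq]; omega
    · -- u
      simp only [Option.some.injEq] at hd
      subst hd
      simp only [size, upd, Prod.mk.injEq, pos, valid] at hs hp hv
      refine ⟨n, _, Tr.au bl o e f n (by omega), rfl, ⟨by omega, by omega⟩, ?_⟩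
      simp only [size, Prod.mk.injEq]; omega
  | B bl o e f g i =>
    cases m <;> simp only [kind, dl, reduceCtorEq] at hd
    · -- L
      split_ifs at hd with hb
      simp only [Option.some.injEq] at hd
      subst hd
      simp only [size, upd, Prod.mk.injEq, pos, valid] at hs hp hv
      refine ⟨o + 1, _, Tr.bL bl o e f g i (o + 1) hb (by omega), rfl, ⟨by omega, by omega⟩, ?_⟩
      simp only [size, Prod.mk.injEq]; omega
    · -- R
      split_ifs at hd with hb
      simp only [Option.some.injEq] at hd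
      subst hd
      simp only [size, upd, Prod.mk.injEq, pos, valid] at hs hp hv
      refine ⟨e - 1, _, Tr.bR bl o e f g i (e - 1) hb (by omega), rfl, ⟨by omega, by omega⟩, ?_⟩
      simp only [size, Prod.mk.injEq]; omega
    · -- r
      split_ifs at hd with hb
      simp only [Option.some.injEq] at hd
      subst hd
      simp only [size, upd, Prod.mk.injEq, pos, valid] at hs hp hv
      refine ⟨g - 1, _, Tr.br bl o e f g i (g - 1) hb (by omega), rfl, ⟨by omega, by omega⟩, ?_⟩
      simp only [size, Prod.mk.injEq]; omega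
    · -- F
      split_ifs at hd with hb
      simp only [Option.some.injEq] at hd
      subst hd
      simp only [size, upd, Prod.mk.injEq, pos, valid] at hs hp hv
      refine ⟨o + 1, _, Tr.bF bl o e f g i (o + 1) hb (by omega), rfl, ⟨by omega, by omega⟩, ?_⟩
      simp only [size, Prod.mk.injEq]; omega
  | C bl o e f g =>
    cases m <;> simp only [kind, dl, reduceCtorEq] at hd
    · -- L
      split_ifs at hd with hb
      simp only [Option.some.injEq] at hd
      subst hd
      simp only [size, upd, Prod.mk.injEq, pos, valid] at hs hp hv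
      refine ⟨o + 1, _, Tr.cL bl o e f g (o + 1) hb (by omega), rfl,
        ⟨by omega, by omega, by omega⟩, ?_⟩
      simp only [size, Prod.mk.injEq]; omega
    · -- R
      split_ifs at hd with hb
      simp only [Option.some.injEq] at hd
      subst hd
      simp only [size, upd, Prod.mk.injEq, pos, valid] at hs hp hv
      refine ⟨e - 1, _, Tr.cR bl o e f g (e - 1) hb (by omega), rfl,
        ⟨by omega, by omega, by omega⟩, ?_⟩
      simp only [size, Prod.mk.injEq]; omega
    · -- r
      split_ifs at hd with hb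
      simp only [Option.some.injEq] at hd
      subst hd
      simp only [size, upd, Prod.mk.injEq, pos, valid] at hs hp hv
      refine ⟨g - 1, _, Tr.cr bl o e f g (g - 1) hb (by omega), rfl,
        ⟨by omega, by omega, by omega⟩, ?_⟩
      simp only [size, Prod.mk.injEq]; omega
    · -- F
      split_ifs at hd with hb
      simp only [Option.some.injEq] at hd
      subst hd
      simp only [size, upd, Prod.mk.injEq, pos, valid] at hs hp hv
      refine ⟨o + 1, _, Tr.cF bl o e f g (o + 1) hb (by omega), rfl, ⟨by omega, by omega⟩, ?_⟩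
      simp only [size, Prod.mk.injEq]; omega
    · -- f
      split_ifs at hd with hb
      simp only [Option.some.injEq] at hd
      subst hd
      simp only [size, upd, Prod.mk.injEq, pos, valid] at hs hp hv
      refine ⟨f + 1, _, Tr.cf bl o e f g (f + 1) hb (by omega), rfl, ⟨by omega, by omega⟩, ?_⟩
      simp only [size, Prod.mk.injEq]; omega
  | C' bl e f g =>
    cases m <;> simp only [kind, dl, reduceCtorEq] at hd
    · -- L
      simp only [Option.some.injEq] at hd
      subst hd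
      simp only [size, upd, Prod.mk.injEq, pos, valid] at hs hp hv
      refine ⟨1, _, Tr.dL bl e f g 1 (by omega), rfl,
        ⟨by omega, by omega, by omega⟩, ?_⟩
      simp only [size, Prod.mk.injEq]; omega
    · -- R
      split_ifs at hd with hb
      simp only [Option.some.injEq] at hd
      subst hd
      simp only [size, upd, Prod.mk.injEq, pos, valid] at hs hp hv
      refine ⟨e - 1, _, Tr.dR bl e f g (e - 1) hb (by omega), rfl,
        ⟨by omega, by omega⟩, ?_⟩
      simp only [size, Prod.mk.injEq]; omega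
    · -- r
      split_ifs at hd with hb
      simp only [Option.some.injEq] at hd
      subst hd
      simp only [size, upd, Prod.mk.injEq, pos, valid] at hs hp hv
      refine ⟨g - 1, _, Tr.dr bl e f g (g - 1) hb (by omega), rfl,
        ⟨by omega, by omega⟩, ?_⟩
      simp only [size, Prod.mk.injEq]; omega
    · -- F
      split_ifs at hd with hb
      simp only [Option.some.injEq] at hd
      subst hd
      simp only [size, upd, Prod.mk.injEq, pos, valid] at hs hp hv
      refine ⟨1, _, Tr.dF bl e f g 1 hb (by omega), rfl, ⟨by omega, by omega⟩, ?_⟩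
      simp only [size, Prod.mk.injEq]; omega
  | D x =>
    cases m <;> simp only [kind, dl, reduceCtorEq] at hd
    simp only [Option.some.injEq] at hd
    subst hd
    simp only [size, upd, Prod.mk.injEq, pos, valid] at hs hp hv
    refine ⟨x, _, Tr.z x hv, rfl, trivial, ?_⟩
    simp only [size, Prod.mk.injEq]; omega
  | E =>
    cases m <;> simp only [kind, dl, reduceCtorEq] at hd

lemma exists_list {n : ℕ} : ∀ (w : List Mv) (s : St), acc (kind s) w → valid n s →
    size n s = sz w → ∃ l, Run n s l w := by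
  intro w
  induction w with
  | nil =>
    intro s h _ _
    simp only [acc] at h
    cases s <;> simp only [kind, reduceCtorEq] at h
    exact ⟨[], Run.nil⟩
  | cons m w ih =>
    intro s h hv hs
    obtain ⟨k', h1, h2⟩ := h
    obtain ⟨x, s', t1, t2, t3, t4⟩ := exists_tr (a := (sz w).1) (b := (sz w).2.1)
      (c := (sz w).2.2) h1 (acc_pos w k' h2).1 hv hs
    subst t2
    obtain ⟨l, hl⟩ := ih s' h2 t3 t4
    exact ⟨x :: l, Run.cons t1 hl⟩

lemma run_word_unique {n : ℕ} {s : St} {l : List ℕ} {w w' : List Mv} (h : Run n s l w)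
    (h' : Run n s l w') : w = w' := by
  induction h generalizing w' with
  | nil => cases h'; rfl
  | cons ht _ ih =>
    cases h' with
    | cons ht' hr' =>
      obtain ⟨rfl, rfl⟩ := tr_det_word ht ht'
      rw [ih hr']

lemma run_list_unique {n : ℕ} {s : St} {l l' : List ℕ} {w : List Mv} (h : Run n s l w)
    (h' : Run n s l' w) : l = l' := by
  induction h generalizing l' with
  | nil => cases h'; rfl
  | cons ht hr ih =>
    cases h' with
    | cons ht' hr' =>
      obtain ⟨rfl, rfl⟩ := tr_det_val ht ht' (hr.size_eq.1.trans hr'.size_eq.1.symm)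
      rw [ih hr']

/-- The set of accepted words of a given length. -/
def W : ℕ → K → Finset (List Mv)
  | 0, k => if k = .E then {[]} else ∅
  | m + 1, k => Finset.univ.biUnion fun x =>
      match dl k x with
      | none => ∅
      | some k' => (W m k').image fun w => x :: w

lemma mem_W : ∀ (m : ℕ) (k : K) (w : List Mv), w ∈ W m k ↔ acc k w ∧ w.length = m := by
  intro m
  induction m with
  | zero =>
    intro k w
    simp only [W]
    constructor
    · intro h
      split_ifs at h with hk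
      · simp only [Finset.mem_singleton] at h
        subst h
        exact ⟨hk, rfl⟩
      · simp at h
    · rintro ⟨h1, h2⟩
      rw [List.length_eq_zero_iff] at h2
      subst h2
      simp only [acc] at h1
      simp [h1]
  | succ m ih =>
    intro k w
    simp only [W, Finset.mem_biUnion, Finset.mem_univ, true_and]
    constructor
    · rintro ⟨x, hx⟩
      cases hd : dl k x with
      | none => rw [hd] at hx; simp at hx
      | some k' =>
        rw [hd] at hx
        simp only [Finset.mem_image] at hx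
        obtain ⟨w', hw, rfl⟩ := hx
        obtain ⟨h1, h2⟩ := (ih k' w').1 hw
        exact ⟨⟨k', hd, h1⟩, by simp [h2]⟩
    · rintro ⟨h1, h2⟩
      rcases w with _ | ⟨x, w⟩
      · simp at h2
      · obtain ⟨k', hd, h3⟩ := h1
        refine ⟨x, ?_⟩
        rw [hd]
        simp only [Finset.mem_image]
        exact ⟨w, (ih k' w).2 ⟨h3, by simpa using h2⟩, rfl⟩

/-- The number of accepted words. -/
def cnt (m : ℕ) (k : K) : ℕ := (W m k).card

lemma cnt_zero (k : K) : cnt 0 k = if k = .E then 1 else 0 := by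
  simp only [cnt, W]
  split_ifs <;> simp

lemma cnt_succ (m : ℕ) (k : K) : cnt (m + 1) k = ∑ x : Mv,
    match dl k x with
      | none => 0
      | some k' => cnt m k' := by
  simp only [cnt, W]
  rw [Finset.card_biUnion]
  · apply Finset.sum_congr rfl
    intro x _
    cases dl k x with
    | none => simp
    | some k' =>
      simp only
      rw [Finset.card_image_of_injective]
      intro a b h
      simpa using h
  · intro x _ y _ hxy
    rw [Function.onFun, Finset.disjoint_left]
    intro w hx hy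
    apply hxy
    cases hdx : dl k x with
    | none => rw [hdx] at hx; simp at hx
    | some k' =>
      cases hdy : dl k y with
      | none => rw [hdy] at hy; simp at hy
      | some k'' =>
        rw [hdx] at hx
        rw [hdy] at hy
        simp only [Finset.mem_image] at hx hy
        obtain ⟨w1, -, rfl⟩ := hx
        obtain ⟨w2, -, h2⟩ := hy
        simp only [List.cons.injEq] at h2
        exact h2.1.symm

lemma sum_Mv (f : Mv → ℕ) : ∑ x : Mv, f x = f .P + f .L + f .R + f .M + f .U + f .V + f .u +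
    f .r + f .F + f .f + f .Z := by
  have : (Finset.univ : Finset Mv) = {.P, .L, .R, .M, .U, .V, .u, .r, .F, .f, .Z} := rfl
  rw [this]
  simp only [Finset.sum_insert, Finset.mem_insert, Finset.mem_singleton, reduceCtorEq, or_self,
    not_false_eq_true, Finset.sum_singleton]
  ring

lemma cnt_E (m : ℕ) : cnt (m + 1) .E = 0 := by
  rw [cnt_succ, sum_Mv]; simp [dl]

lemma cnt_D (m : ℕ) : cnt (m + 1) .D = cnt m .E := by
  rw [cnt_succ, sum_Mv]; simp [dl]

lemma cnt_S (m : ℕ) : cnt (m + 1) .S = cnt m .AP := by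
  rw [cnt_succ, sum_Mv]; simp [dl]

lemma cnt_AP (m : ℕ) : cnt (m + 1) .AP =
    cnt m (.A .L) + cnt m (.B .R) + cnt m (.B .r) + cnt m (.C' .r) := by
  rw [cnt_succ, sum_Mv]; simp [dl]

lemma cnt_AL (m : ℕ) : cnt (m + 1) (.A .L) =
    cnt m (.A .R) + cnt m (.B .R) + cnt m (.B .r) + cnt m (.C .r) + cnt m .D := by
  rw [cnt_succ, sum_Mv]; simp [dl]

lemma cnt_AR (m : ℕ) : cnt (m + 1) (.A .R) =
    cnt m (.A .L) + cnt m (.B .R) + cnt m (.B .r) + cnt m (.C .r) + cnt m .D := by
  rw [cnt_succ, sum_Mv]; simp [dl]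

lemma cnt_An (m : ℕ) : cnt (m + 1) (.A .n) =
    cnt m (.A .L) + cnt m (.A .R) + cnt m (.B .R) + cnt m (.B .r) + cnt m (.C .r) +
      cnt m .D := by
  rw [cnt_succ, sum_Mv]; simp [dl]

lemma cnt_BL (m : ℕ) : cnt (m + 1) (.B .L) = cnt m (.B .R) + cnt m (.B .r) := by
  rw [cnt_succ, sum_Mv]; simp [dl]

lemma cnt_BR (m : ℕ) : cnt (m + 1) (.B .R) = cnt m (.B .L) + cnt m (.B .r) := by
  rw [cnt_succ, sum_Mv]; simp [dl]

lemma cnt_Br (m : ℕ) : cnt (m + 1) (.B .r) = cnt m (.B .L) + cnt m (.B .R) + cnt m (.A .n) := by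
  rw [cnt_succ, sum_Mv]; simp [dl]

lemma cnt_CL (m : ℕ) : cnt (m + 1) (.C .L) = cnt m (.C .R) + cnt m (.C .r) + cnt m .D := by
  rw [cnt_succ, sum_Mv]; simp [dl]

lemma cnt_CR (m : ℕ) : cnt (m + 1) (.C .R) = cnt m (.C .L) + cnt m (.C .r) + cnt m .D := by
  rw [cnt_succ, sum_Mv]; simp [dl]

lemma cnt_Cr (m : ℕ) : cnt (m + 1) (.C .r) = cnt m (.C .L) + cnt m (.C .R) + cnt m .D := by
  rw [cnt_succ, sum_Mv]; simp [dl]

lemma cnt_C'r (m : ℕ) : cnt (m + 1) (.C' .r) = cnt m (.C .L) + cnt m (.C' .R) + cnt m .D := by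
  rw [cnt_succ, sum_Mv]; simp [dl]

lemma cnt_C'R (m : ℕ) : cnt (m + 1) (.C' .R) = cnt m (.C .L) + cnt m (.C' .r) := by
  rw [cnt_succ, sum_Mv]; simp [dl]

lemma cnt_D' (m : ℕ) : cnt (m + 2) .D = 0 := by rw [cnt_D, cnt_E]

lemma cnt_small : cnt 1 .D = 1 ∧ cnt 0 .D = 0 ∧ (∀ b, cnt 0 (.A b) = 0) ∧
    (∀ b, cnt 0 (.B b) = 0) ∧ (∀ b, cnt 0 (.C b) = 0) ∧ (∀ b, cnt 0 (.C' b) = 0) := by
  refine ⟨?_, ?_, ?_, ?_, ?_, ?_⟩
  · rw [cnt_D, cnt_zero]; rfl
  · rw [cnt_zero]; rfl
  · intro b; rw [cnt_zero]; rfl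
  · intro b; rw [cnt_zero]; rfl
  · intro b; rw [cnt_zero]; rfl
  · intro b; rw [cnt_zero]; rfl

lemma cnt_one : (∀ b, cnt 1 (.A b) = 0) ∧ (∀ b, cnt 1 (.B b) = 0) ∧ (∀ b, cnt 1 (.C b) = 0) ∧
    (∀ b, cnt 1 (.C' b) = 0) := by
  obtain ⟨h1, h2, h3, h4, h5, h6⟩ := cnt_small
  refine ⟨?_, ?_, ?_, ?_⟩ <;> intro b <;> rw [cnt_succ, sum_Mv] <;> cases b <;>
    simp [dl, h2, h3, h4, h5, h6]

lemma cnt_C (m : ℕ) : cnt (m + 2) (.C .L) = 2 ^ m ∧ cnt (m + 2) (.C .R) = 2 ^ m ∧
    cnt (m + 2) (.C .r) = 2 ^ m := by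
  obtain ⟨h1, h2, h3, h4, h5, h6⟩ := cnt_small
  obtain ⟨g3, g4, g5, g6⟩ := cnt_one
  induction m with
  | zero =>
    have e1 := cnt_CL 1
    have e2 := cnt_CR 1
    have e3 := cnt_Cr 1
    rw [g5, g5, h1] at e1 e2 e3
    exact ⟨e1, e2, e3⟩
  | succ m ih =>
    obtain ⟨i1, i2, i3⟩ := ih
    have e1 := cnt_CL (m + 2)
    have e2 := cnt_CR (m + 2)
    have e3 := cnt_Cr (m + 2)
    have e4 := cnt_D' m
    rw [show m + 1 + 2 = m + 2 + 1 by ring, pow_succ]
    omega

lemma cnt_C' (m : ℕ) : cnt (m + 2) (.C' .r) + (if Even m then 0 else 1) = 2 ^ m ∧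
    cnt (m + 2) (.C' .R) + (if Even m then 1 else 0) = 2 ^ m := by
  obtain ⟨h1, h2, h3, h4, h5, h6⟩ := cnt_small
  obtain ⟨g3, g4, g5, g6⟩ := cnt_one
  induction m with
  | zero =>
    have e1 := cnt_C'r 1
    have e2 := cnt_C'R 1
    rw [g5, g6, h1] at e1
    rw [g5, g6] at e2
    have he : Even 0 := Even.zero
    simp only [Nat.zero_add, he, if_true, pow_zero]
    norm_num at e1 e2
    rw [e1, e2]
    exact ⟨rfl, rfl⟩
  | succ m ih =>
    obtain ⟨i1, i2⟩ := ih
    obtain ⟨j1, j2, j3⟩ := cnt_C m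
    have e1 := cnt_C'r (m + 2)
    have e2 := cnt_C'R (m + 2)
    have e4 := cnt_D' m
    rw [show m + 1 + 2 = m + 2 + 1 by ring, pow_succ]
    by_cases he : Even m
    · have he' : ¬ Even (m + 1) := by rw [Nat.even_add_one]; simpa using he
      simp only [he, if_true] at i1 i2
      simp only [he', if_false]
      omega
    · have he' : Even (m + 1) := by rw [Nat.even_add_one]; exact he
      simp only [he, if_false] at i1 i2
      simp only [he', if_true]
      omega

lemma cnt_AB (m : ℕ) : cnt (m + 2) (.A .L) = Nat.fib (2 * m + 1) ∧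
    cnt (m + 2) (.A .R) = Nat.fib (2 * m + 1) ∧
    cnt (m + 3) (.A .n) = Nat.fib (2 * m + 3) + Nat.fib (2 * m + 1) ∧
    cnt (m + 3) (.B .L) + 2 ^ m = Nat.fib (2 * m + 2) ∧
    cnt (m + 3) (.B .R) + 2 ^ m = Nat.fib (2 * m + 2) ∧
    cnt (m + 3) (.B .r) + 2 ^ m = Nat.fib (2 * m + 3) := by
  obtain ⟨h1, h2, h3, h4, h5, h6⟩ := cnt_small
  induction m with
  | zero =>
    obtain ⟨g3, g4, g5, g6⟩ := cnt_one
    have a1 := cnt_AL 1
    have a2 := cnt_AR 1
    have a3 := cnt_An 1
    rw [g3, g4, g4, g5, h1] at a1 a2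
    rw [g3, g3, g4, g4, g5, h1] at a3
    have b1 := cnt_BL 1
    have b2 := cnt_BR 1
    have b3 := cnt_Br 1
    rw [g4, g4] at b1 b2
    rw [g4, g4, g3] at b3
    obtain ⟨c1, c2, c3⟩ := cnt_C 0
    have a4 := cnt_An 2
    have b4 := cnt_BL 2
    have b5 := cnt_BR 2
    have b6 := cnt_Br 2
    have d4 := cnt_D' 0
    simp only [Nat.zero_add, pow_zero] at c1 c2 c3 d4
    simp only [Nat.mul_zero, Nat.zero_add, pow_zero]
    have f1 : Nat.fib 1 = 1 := rfl
    have f2 : Nat.fib 2 = 1 := rfl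
    have f3 : Nat.fib 3 = 2 := rfl
    norm_num at a1 a2 a3 b1 b2 b3 a4 b4 b5 b6
    omega
  | succ m ih =>
    obtain ⟨i1, i2, i3, i4, i5, i6⟩ := ih
    obtain ⟨c1, c2, c3⟩ := cnt_C m
    obtain ⟨d1, d2, d3⟩ := cnt_C (m + 1)
    have f1 : Nat.fib (2 * m + 3) = Nat.fib (2 * m + 1) + Nat.fib (2 * m + 2) := Nat.fib_add_two
    have f2 : Nat.fib (2 * m + 4) = Nat.fib (2 * m + 2) + Nat.fib (2 * m + 3) := Nat.fib_add_two
    have f3 : Nat.fib (2 * m + 5) = Nat.fib (2 * m + 3) + Nat.fib (2 * m + 4) := Nat.fib_add_two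
    -- the values at m + 2 of B, from the values at m + 3
    have g1 : cnt (m + 3) (.A .L) = Nat.fib (2 * m + 3) := by
      have e1 := cnt_BL (m + 2)
      have e2 := cnt_AL (m + 2)
      have e3 := cnt_D' m
      rw [show m + 2 + 1 = m + 3 by ring] at e1 e2
      omega
    have g2 : cnt (m + 3) (.A .R) = Nat.fib (2 * m + 3) := by
      have e1 := cnt_BL (m + 2)
      have e2 := cnt_AR (m + 2)
      have e3 := cnt_D' m
      rw [show m + 2 + 1 = m + 3 by ring] at e1 e2
      omega
    have e1 := cnt_BL (m + 3)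
    have e2 := cnt_BR (m + 3)
    have e3 := cnt_Br (m + 3)
    have e4 := cnt_An (m + 3)
    have e5 := cnt_D' (m + 1)
    rw [show m + 1 + 2 = m + 3 by ring] at d3 e5 ⊢
    rw [show m + 1 + 3 = m + 4 by ring, show 2 * (m + 1) + 1 = 2 * m + 3 by ring,
      show 2 * (m + 1) + 3 = 2 * m + 5 by ring, show 2 * (m + 1) + 2 = 2 * m + 4 by ring]
    rw [show m + 3 + 1 = m + 4 by ring] at e1 e2 e3 e4
    rw [pow_succ] at d3 ⊢
    refine ⟨g1, g2, ?_, ?_, ?_, ?_⟩ <;> omega

theorem cnt_formula (n : ℕ) (hn : 3 ≤ n) :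
    (Odd n → cnt n .S = Nat.fib (2 * n - 5) - 1) ∧ (Even n → cnt n .S = Nat.fib (2 * n - 5)) := by
  obtain ⟨h1, h2, h3, h4, h5, h6⟩ := cnt_small
  obtain ⟨a1, -, -, b1, b2, b3⟩ := cnt_AB 0
  obtain ⟨m, rfl⟩ : ∃ m, n = m + 3 := ⟨n - 3, by omega⟩
  rcases m with _ | _ | m
  · refine ⟨fun _ => ?_, fun h => absurd h (by decide)⟩
    rw [show 0 + 3 = 1 + 1 + 1 by rfl, cnt_S, cnt_AP, cnt_AL, cnt_BR, cnt_Br, cnt_C'r]
    simp [h2, h3, h4, h5, h6]
  · refine ⟨fun h => absurd h (by decide), fun _ => ?_⟩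
    obtain ⟨j1, j2⟩ := cnt_C' 0
    obtain ⟨g3, g4, g5, g6⟩ := cnt_one
    have k2 := cnt_BR 1
    have k3 := cnt_Br 1
    rw [g4, g4] at k2
    rw [g4, g4, g3] at k3
    have e1 : cnt (0 + 1 + 3) .S = cnt 2 (.A .L) + cnt 2 (.B .R) +
        cnt 2 (.B .r) + cnt 2 (.C' .r) := by
      rw [show 0 + 1 + 3 = 2 + 1 + 1 by rfl, cnt_S, cnt_AP]
    rw [e1]
    simp only [Nat.zero_add, Even.zero, if_true, pow_zero] at a1 j1
    have f3 : Nat.fib (2 * (0 + 1 + 3) - 5) = 2 := rfl
    have f1 : Nat.fib (2 * 0 + 1) = 1 := rfl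
    norm_num at k2 k3
    omega
  · obtain ⟨i1, -, -, -, -, -⟩ := cnt_AB (m + 1)
    obtain ⟨-, -, -, i4, i5, i6⟩ := cnt_AB m
    obtain ⟨j1, j2⟩ := cnt_C' (m + 1)
    have f2 : Nat.fib (2 * m + 4) = Nat.fib (2 * m + 2) + Nat.fib (2 * m + 3) := Nat.fib_add_two
    have f3 : Nat.fib (2 * m + 5) = Nat.fib (2 * m + 3) + Nat.fib (2 * m + 4) := Nat.fib_add_two
    have e1 : cnt (m + 1 + 1 + 3) .S = cnt (m + 3) (.A .L) + cnt (m + 3) (.B .R) +
        cnt (m + 3) (.B .r) + cnt (m + 3) (.C' .r) := by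
      rw [show m + 1 + 1 + 3 = m + 3 + 1 + 1 by ring, cnt_S, cnt_AP]
    rw [show m + 1 + 2 = m + 3 by ring] at i1 j1 j2
    rw [show 2 * (m + 1) + 1 = 2 * m + 3 by ring] at i1
    rw [e1, show 2 * (m + 1 + 1 + 3) - 5 = 2 * m + 5 by omega]
    rw [pow_succ] at j1
    constructor
    · intro ho
      have hm : ¬ Even (m + 1) := by
        rw [Nat.even_add_one, not_not]
        by_contra hne
        rw [Nat.not_even_iff_odd] at hne
        have : Even (m + 1 + 1 + 3) := by
          obtain ⟨t, rfl⟩ := hne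
          exact ⟨t + 3, by ring⟩
        exact (Nat.not_even_iff_odd.2 ho) this
      simp only [hm, if_false] at j1
      omega
    · intro he
      have hm : Even (m + 1) := by
        obtain ⟨t, ht⟩ := he
        exact ⟨t - 2, by omega⟩
      simp only [hm, if_true] at j1
      omega

open Classical in
theorem simpleSortable_eq (n : ℕ) (hn : 3 ≤ n) : simpleSortable n = cnt n .S := by
  have hW : ∀ w, w ∈ W n .S ↔ ∃ l, Run n .S l w := by
    intro w
    rw [mem_W]
    constructor
    · rintro ⟨h1, h2⟩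
      apply exists_list w .S h1 trivial
      have h3 := (acc_pos w .S h1).2
      rcases w with _ | ⟨x, w⟩
      · simp only [acc, reduceCtorEq] at h1
      · obtain ⟨k', h4, h5⟩ := h1
        cases x <;> simp only [dl, reduceCtorEq] at h4
        simp only [sz, upd, size] at h3 ⊢
        rw [h2] at h3
        simp only [Nat.add_zero] at h3
        rw [h3]
    · rintro ⟨l, hl⟩
      refine ⟨hl.size_eq.2, ?_⟩
      have h1 := hl.length_eq
      have h2 := hl.perm.length_eq
      rw [List.length_range'] at h2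
      omega
  have hL : ∀ l, l ∈ ((List.range' 1 n).permutations.toFinset.filter
      fun l => Simple l ∧ Sortable l) ↔ ∃ w, Run n .S l w := by
    intro l
    rw [Finset.mem_filter, List.mem_toFinset, List.mem_permutations]
    constructor
    · rintro ⟨h1, h2, h3⟩
      exact exists_run hn h1 h2 h3
    · rintro ⟨w, hw⟩
      exact ⟨hw.perm, hw.simple, hw.sortable⟩
  unfold simpleSortable cnt
  symm
  apply Finset.card_bij (fun w hw => Classical.choose ((hW w).1 hw))
  · intro w hw
    exact (hL _).2 ⟨w, Classical.choose_spec ((hW w).1 hw)⟩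
  · intro w hw w' hw' he
    have h1 := Classical.choose_spec ((hW w).1 hw)
    have h2 := Classical.choose_spec ((hW w').1 hw')
    rw [he] at h1
    exact run_word_unique h1 h2
  · intro l hl
    obtain ⟨w, hw⟩ := (hL l).1 hl
    have hw' := (hW w).2 ⟨l, hw⟩
    exact ⟨w, hw', run_list_unique (Classical.choose_spec ((hW w).1 hw')) hw⟩

theorem main (n : ℕ) (hn : 3 ≤ n) :
    (Odd n → simpleSortable n = Nat.fib (2 * n - 5) - 1) ∧
    (Even n → simpleSortable n = Nat.fib (2 * n - 5)) := by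
  rw [simpleSortable_eq n hn]
  exact cnt_formula n hn

end Pool.Agent.Work.MP_95815e_co
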